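import Mathlib
import Pool.Agent.Helper80.QP.Key3

set_option autoImplicit false

open IsDedekindDomain NumberField Polynomial

namespace Pool.Agent.Helper80.SG

open Pool.Agent.Helper80.UC Pool.Agent.Helper80.QP

variable {K : Type} [Field K] [NumberField K] {X : Type}

/-- a fibred map `(x, y) ↦ (φ x, h_x(y)^d + b_x)` -/
def sk (φ : X → X) (h : X → K → K) (d : ℕ) (b : X → K) : X × K → X × K :=
  fun z => (φ z.1, h z.1 z.2 ^ d + b z.1)

section loc

variable {v : Pl K} {φ : X → X} {h : X → K → K} {e d : ℕ} {b : X → K} {M : Finset K}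

/-- escape of large points -/
lemma sk_esc (H : ∀ x, GH v (h x) e) (he : 1 ≤ e) (hd : 2 ≤ d) {z : X × K} (hz : o v z.2 < 0)
    (hb : ∀ x, b x = 0 ∨ d * e * o v z.2 < o v (b x)) : ¬ Pre (sk φ h d b) z := by
  refine not_pre (f := sk φ h d b)
    (fun z => o v z.2 < 0 ∧ ∀ x, (b x = 0 ∨ d * e * o v z.2 < o v (b x)))
    (fun z => o v z.2) ?_ ⟨hz, hb⟩
  rintro ⟨x, y⟩ ⟨hy, hyc⟩
  simp only at hy hyc
  obtain ⟨n1, o1⟩ := (H x).a y hy
  have hpow : o v (h x y ^ d) = d * e * o v y := by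
    rw [o_pow, o1]; ring
  have hn : h x y ^ d ≠ 0 := pow_ne_zero _ n1
  have hs := o_add_lt' v hn (y := b x) (by rw [hpow]; exact hyc x)
  have he' : (1 : ℤ) ≤ e := by exact_mod_cast he
  have hd' : (2 : ℤ) ≤ d := by exact_mod_cast hd
  have hde : (2 : ℤ) ≤ d * e := by nlinarith
  have h1 : o v (sk φ h d b (x, y)).2 = d * e * o v y := by
    rw [sk, hs.2, hpow]
  have h2 : (d * e * o v y : ℤ) < o v y := by nlinarith
  refine ⟨⟨by rw [h1]; omega, ?_⟩, by rw [h1]; exact h2⟩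
  intro x'
  rcases hyc x' with hyc' | hyc'
  · exact Or.inl hyc'
  · right
    rw [h1]
    have : (d * e * (d * e * o v y) : ℤ) < d * e * o v y := by nlinarith
    omega

/-- valuation of preperiodic points at a bad place -/
lemma sk_bad_val (H : ∀ x, GH v (h x) e) (he : 1 ≤ e) (hd : 2 ≤ d) {γ : ℤ} (hγ : γ < 0)
    (hb : ∀ x, b x ≠ 0 ∧ o v (b x) = γ) {z : X × K} (hz : Pre (sk φ h d b) z) :
    z.2 ≠ 0 ∧ d * e * o v z.2 = γ := by
  have he' : (1 : ℤ) ≤ e := by exact_mod_cast he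
  have hd' : (2 : ℤ) ≤ d := by exact_mod_cast hd
  have hde : (2 : ℤ) ≤ d * e := by nlinarith
  have key : ∀ (x : X) (y : K), h x y ^ d = 0 ∨ γ < o v (h x y ^ d) →
      ¬ Pre (sk φ h d b) (x, y) := by
    intro x y hy hpre
    have hs := o_add_lt' v (hb x).1 (y := h x y ^ d) (by rw [(hb x).2]; exact hy)
    have h1 : o v (sk φ h d b (x, y)).2 = γ := by rw [sk, add_comm, hs.2, (hb x).2]
    refine sk_esc H he hd (z := sk φ h d b (x, y)) (by rw [h1]; exact hγ) ?_ hpre.map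
    intro x'
    right
    rw [h1, (hb x').2]
    nlinarith
  obtain ⟨x, y⟩ := z
  simp only
  rcases lt_or_ge (o v y) 0 with hlt | hge
  · have hy0 : y ≠ 0 := by rintro rfl; simp at hlt
    refine ⟨hy0, ?_⟩
    obtain ⟨n1, o1⟩ := (H x).a y hlt
    have hpow : o v (h x y ^ d) = d * e * o v y := by
      rw [o_pow, o1]; ring
    rcases lt_trichotomy (d * e * o v y : ℤ) γ with h1 | h1 | h1
    · exact absurd hz (sk_esc H he hd hlt (fun x' => Or.inr (by rw [(hb x').2]; exact h1)))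
    · exact h1
    · exact absurd hz (key x y (Or.inr (by rw [hpow]; exact h1)))
  · exfalso
    refine key x y ?_ hz
    have hA := (H x).c y (mem_A_of v hge)
    by_cases h0 : h x y ^ d = 0
    · exact Or.inl h0
    · right
      rw [o_pow]
      have := o_nonneg v hA
      have : (0 : ℤ) ≤ d * o v (h x y) := mul_nonneg (by omega) this
      omega

lemma sk_bad_neg (H : ∀ x, GH v (h x) e) (he : 1 ≤ e) (hd : 2 ≤ d) {γ : ℤ} (hγ : γ < 0)
    (hb : ∀ x, b x ≠ 0 ∧ o v (b x) = γ) {z : X × K} (hz : Pre (sk φ h d b) z) :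
    o v z.2 < 0 := by
  have h1 := (sk_bad_val H he hd hγ hb hz).2
  by_contra hcon
  push Not at hcon
  have : (0 : ℤ) ≤ d * e * o v z.2 := mul_nonneg (by positivity) hcon
  omega

lemma sk_bad_eq (H : ∀ x, GH v (h x) e) (he : 1 ≤ e) (hd : 2 ≤ d) {γ : ℤ} (hγ : γ < 0)
    (hb : ∀ x, b x ≠ 0 ∧ o v (b x) = γ) {z w : X × K} (hz : Pre (sk φ h d b) z)
    (hw : Pre (sk φ h d b) w) : o v z.2 = o v w.2 := by
  have h1 := (sk_bad_val H he hd hγ hb hz).2
  have h2 := (sk_bad_val H he hd hγ hb hw).2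
  have he' : (1 : ℤ) ≤ e := by exact_mod_cast he
  have hd' : (2 : ℤ) ≤ d := by exact_mod_cast hd
  have hde : (d * e : ℤ) ≠ 0 := by nlinarith
  exact mul_left_cancel₀ hde (h1.trans h2.symm)

/-- `(de-1) ∣ o(y-y') - o(y')` for points of the same fibre at a bad place -/
lemma sk_bad_pair (H : ∀ x, GH v (h x) e) (HM : GM v M d) (he : 1 ≤ e) (hd : 2 ≤ d) {γ : ℤ}
    (hγ : γ < 0) (hb : ∀ x, b x ≠ 0 ∧ o v (b x) = γ) :
    ∀ (n : ℕ) (x : X) (y y' : K), Pre (sk φ h d b) (x, y) → Pre (sk φ h d b) (x, y') → y ≠ y' →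
      (o v (y - y') - o v y').toNat = n → ((d * e - 1 : ℤ)) ∣ o v (y - y') - o v y' := by
  intro n
  induction n using Nat.strong_induction_on with
  | _ n ih =>
    intro x y y' hy hy' hne hn
    have he' : (1 : ℤ) ≤ e := by exact_mod_cast he
    have hd' : (2 : ℤ) ≤ d := by exact_mod_cast hd
    have hde : (2 : ℤ) ≤ d * e := by nlinarith
    have hoxy : o v y = o v y' :=
      sk_bad_eq (z := (x, y)) (w := (x, y')) H he hd hγ hb hy hy'
    have hyneg : o v y' < 0 := sk_bad_neg (z := (x, y')) H he hd hγ hb hy'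
    have hxneg : o v y < 0 := sk_bad_neg (z := (x, y)) H he hd hγ hb hy
    have hsub0 := sub_ne_zero.mpr hne
    have hge : o v y' ≤ o v (y - y') := by
      rw [sub_eq_add_neg] at hsub0 ⊢
      exact o_add_ge v hsub0 (Or.inr hoxy.ge) (Or.inr (by rw [o_neg]))
    rcases hge.eq_or_lt with heq | hlt
    · rw [← heq, sub_self]; exact dvd_zero _
    · obtain ⟨hhne, hho⟩ := (H x).b y y' hxneg hoxy.symm hne (by rw [hoxy]; exact hlt)
      obtain ⟨hy0, hyo⟩ := (H x).a y' hyneg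
      have hpc := prod_close HM (X := h x y) (Y := h x y') hy0 HM.one
        (by rw [one_mul]; exact hhne) (by
          rw [one_mul, hho, hyo, hoxy]
          nlinarith)
      rw [one_mul, hho, hyo] at hpc
      obtain ⟨p1, p2⟩ := hpc
      have hff : (sk φ h d b (x, y)).2 - (sk φ h d b (x, y')).2 = h x y ^ d - h x y' ^ d := by
        simp [sk]
      have hfne : (sk φ h d b (x, y)).2 ≠ (sk φ h d b (x, y')).2 := by
        rw [← sub_ne_zero, hff]; exact p1
      have hofy : o v (sk φ h d b (x, y')).2 = o v y' :=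
        sk_bad_eq (z := sk φ h d b (x, y')) (w := (x, y')) H he hd hγ hb hy'.map hy'
      have hE : o v ((sk φ h d b (x, y)).2 - (sk φ h d b (x, y')).2) -
          o v (sk φ h d b (x, y')).2 = (o v (y - y') - o v y') + (d * e - 1) * o v y' := by
        rw [hff, p2, hofy, hoxy]; ring
      have hlt2 : (o v ((sk φ h d b (x, y)).2 - (sk φ h d b (x, y')).2) -
          o v (sk φ h d b (x, y')).2).toNat < n := by
        rw [hE, ← hn]
        have : ((d * e - 1) * o v y' : ℤ) < 0 := by nlinarith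
        omega
      have := ih _ hlt2 (φ x) (sk φ h d b (x, y)).2 (sk φ h d b (x, y')).2 hy.map hy'.map hfne rfl
      rw [hE] at this
      exact (Int.dvd_iff_dvd_of_dvd_add this).mpr (Dvd.intro _ rfl)

/-- `(de-1) ∣ o(h y - η h y') - o(h y')` -/
lemma sk_bad_eta (H : ∀ x, GH v (h x) e) (HM : GM v M d) (he : 1 ≤ e) (hd : 2 ≤ d) {γ : ℤ}
    (hγ : γ < 0) (hb : ∀ x, b x ≠ 0 ∧ o v (b x) = γ) {x : X} {y y' : K}
    (hy : Pre (sk φ h d b) (x, y)) (hy' : Pre (sk φ h d b) (x, y')) {η : K} (hη : η ∈ M)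
    (hne : h x y ≠ η * h x y') :
    ((d * e - 1 : ℤ)) ∣ o v (h x y - η * h x y') - o v (h x y') := by
  have hoxy : o v y = o v y' := sk_bad_eq (z := (x, y)) (w := (x, y')) H he hd hγ hb hy hy'
  have hyneg : o v y' < 0 := sk_bad_neg (z := (x, y')) H he hd hγ hb hy'
  have hxneg : o v y < 0 := sk_bad_neg (z := (x, y)) H he hd hγ hb hy
  obtain ⟨hy0, hyo⟩ := (H x).a y' hyneg
  obtain ⟨hx0, hxo⟩ := (H x).a y hxneg
  have hsub0 := sub_ne_zero.mpr hne
  have hge : o v (h x y') ≤ o v (h x y - η * h x y') := by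
    rw [sub_eq_add_neg] at hsub0 ⊢
    refine o_add_ge v hsub0 (Or.inr (by rw [hxo, hyo, hoxy])) (Or.inr ?_)
    rw [o_neg, o_mul v (HM.ne η hη) hy0, HM.unit η hη, zero_add]
  rcases hge.eq_or_lt with heq | hlt
  · rw [← heq, sub_self]; exact dvd_zero _
  · obtain ⟨p1, p2⟩ := prod_close HM (X := h x y) (Y := h x y') hy0 hη hne hlt
    have hff : (sk φ h d b (x, y)).2 - (sk φ h d b (x, y')).2 = h x y ^ d - h x y' ^ d := by
      simp [sk]
    have hfne : (sk φ h d b (x, y)).2 ≠ (sk φ h d b (x, y')).2 := by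
      rw [← sub_ne_zero, hff]; exact p1
    have h1 := sk_bad_pair H HM he hd hγ hb _ (φ x) (sk φ h d b (x, y)).2
      (sk φ h d b (x, y')).2 hy.map hy'.map hfne rfl
    have hofy : o v (sk φ h d b (x, y')).2 = o v y' :=
      sk_bad_eq (z := sk φ h d b (x, y')) (w := (x, y')) H he hd hγ hb hy'.map hy'
    have hE : o v ((sk φ h d b (x, y)).2 - (sk φ h d b (x, y')).2) -
        o v (sk φ h d b (x, y')).2 =
          (o v (h x y - η * h x y') - o v (h x y')) + (d * e - 1) * o v y' := by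
      rw [hff, p2, hofy, hyo]; ring
    rw [hE] at h1
    exact (Int.dvd_iff_dvd_of_dvd_add h1).mpr (Dvd.intro _ rfl)

/-! ### good places -/

lemma sk_good_int (H : ∀ x, GH v (h x) e) (he : 1 ≤ e) (hd : 2 ≤ d) (hb : ∀ x, b x ∈ A v)
    {z : X × K} (hz : Pre (sk φ h d b) z) : z.2 ∈ A v := by
  by_contra hcon
  obtain ⟨-, hlt⟩ := not_mem_A v hcon
  refine sk_esc H he hd hlt (fun x => ?_) hz
  right
  have := o_nonneg v (hb x)
  have he' : (1 : ℤ) ≤ e := by exact_mod_cast he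
  have hd' : (2 : ℤ) ≤ d := by exact_mod_cast hd
  have hde : (2 : ℤ) ≤ d * e := by nlinarith
  nlinarith

/-- one step at a good place -/
lemma sk_good_step (H : ∀ x, GH v (h x) e) (HM : GM v M d) {x : X} {u w : K} (hu : u ∈ A v)
    (hw : w ∈ A v) (hne : (sk φ h d b (x, u)).2 ≠ (sk φ h d b (x, w)).2) :
    (∀ η ∈ M, h x u ≠ η * h x w) ∧
    o v (u - w) ≤ o v ((sk φ h d b (x, u)).2 - (sk φ h d b (x, w)).2) ∧
    (∀ η ∈ M, 0 ≤ o v (h x u - η * h x w)) ∧
    (∀ η ∈ M, η ≠ 1 → o v (h x u - η * h x w) + o v (u - w) ≤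
      o v ((sk φ h d b (x, u)).2 - (sk φ h d b (x, w)).2)) := by
  classical
  have hff : (sk φ h d b (x, u)).2 - (sk φ h d b (x, w)).2 = ∏ η ∈ M, (h x u - η * h x w) := by
    rw [← HM.fac]; simp [sk]
  have hprod : ∏ η ∈ M, (h x u - η * h x w) ≠ 0 := by
    rw [← hff]; exact sub_ne_zero.mpr hne
  have hall : ∀ η ∈ M, h x u - η * h x w ≠ 0 := Finset.prod_ne_zero_iff.mp hprod
  have hnn : ∀ η ∈ M, 0 ≤ o v (h x u - η * h x w) := by
    intro η hη
    apply o_nonneg
    exact sub_mem ((H x).c u hu) (mul_mem (mem_A_of v (by rw [HM.unit η hη])) ((H x).c w hw))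
  have hsum : o v ((sk φ h d b (x, u)).2 - (sk φ h d b (x, w)).2) =
      ∑ η ∈ M, o v (h x u - η * h x w) := by
    rw [hff, o_prod v M _ hall]
  have hle1 : o v (u - w) ≤ o v (h x u - h x w) := by
    obtain ⟨q, hq, hqe⟩ := (H x).d u w hu hw
    have h1 := hall 1 HM.one
    rw [one_mul] at h1
    have h2 : (u - w) * q ≠ 0 := by rw [← hqe]; exact h1
    rw [hqe, o_mul v (left_ne_zero_of_mul h2) (right_ne_zero_of_mul h2)]
    have := o_nonneg v hq
    omega
  refine ⟨fun η hη => sub_ne_zero.mp (hall η hη), ?_, hnn, fun η hη hη1 => ?_⟩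
  · have h6 := Finset.single_le_sum (f := fun η => o v (h x u - η * h x w))
      (fun i hi => hnn i hi) HM.one
    simp only [one_mul] at h6
    rw [hsum]
    exact hle1.trans h6
  · rw [hsum, ← Finset.add_sum_erase M _ HM.one, one_mul]
    have hmem : η ∈ M.erase 1 := Finset.mem_erase.mpr ⟨hη1, hη⟩
    have := Finset.single_le_sum (f := fun η => o v (h x u - η * h x w))
      (fun i hi => hnn i (Finset.mem_of_mem_erase hi)) hmem
    linarith

/-- equality of base points along the orbits -/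
lemma sk_base (φ : X → X) (h : X → K → K) (d : ℕ) (b : X → K) (x : X) (u w : K) (n : ℕ) :
    ((sk φ h d b)^[n] (x, u)).1 = ((sk φ h d b)^[n] (x, w)).1 := by
  induction n with
  | zero => rfl
  | succ n ih =>
    rw [Function.iterate_succ_apply', Function.iterate_succ_apply']
    simp only [sk]
    rw [ih]

lemma sk_good_mono (H : ∀ x, GH v (h x) e) (HM : GM v M d) (he : 1 ≤ e) (hd : 2 ≤ d)
    (hb : ∀ x, b x ∈ A v) {x : X} {y y' : K} (hy : Pre (sk φ h d b) (x, y))
    (hy' : Pre (sk φ h d b) (x, y'))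
    (hne : ∀ n, (sk φ h d b)^[n] (x, y) ≠ (sk φ h d b)^[n] (x, y')) (k : ℕ) : ∀ m,
    o v (((sk φ h d b)^[m] (x, y)).2 - ((sk φ h d b)^[m] (x, y')).2) ≤
      o v (((sk φ h d b)^[m + k] (x, y)).2 - ((sk φ h d b)^[m + k] (x, y')).2) := by
  induction k with
  | zero => intro m; simp
  | succ k ih =>
    intro m
    refine (ih m).trans ?_
    rw [← add_assoc, Function.iterate_succ_apply', Function.iterate_succ_apply']
    have hbase := sk_base φ h d b x y y' (m + k)
    have hA := sk_good_int H he hd hb (hy.iter (m + k))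
    have hA' := sk_good_int H he hd hb (hy'.iter (m + k))
    have hne' := hne (m + k + 1)
    rw [Function.iterate_succ_apply', Function.iterate_succ_apply'] at hne'
    set z := (sk φ h d b)^[m + k] (x, y) with hz
    set z' := (sk φ h d b)^[m + k] (x, y') with hz'
    have e1 : z = (z.1, z.2) := rfl
    have e2 : z' = (z.1, z'.2) := by rw [hbase]
    rw [e1, e2] at hne' ⊢
    refine (sk_good_step H HM hA hA' ?_).2.1
    intro h0
    apply hne'
    exact Prod.ext rfl h0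

lemma sk_good_unit (H : ∀ x, GH v (h x) e) (HM : GM v M d) (he : 1 ≤ e) (hd : 2 ≤ d)
    (hb : ∀ x, b x ∈ A v) {x : X} {y y' : K} (hy : Per (sk φ h d b) (x, y))
    (hy' : Per (sk φ h d b) (x, y')) (hyy : y ≠ y') :
    ∀ η ∈ M, η ≠ 1 → o v (h x y - η * h x y') = 0 := by
  have hyA : y ∈ A v := sk_good_int (z := (x, y)) H he hd hb hy.pre
  have hyA' : y' ∈ A v := sk_good_int (z := (x, y')) H he hd hb hy'.pre
  have hzz : ((x, y) : X × K) ≠ (x, y') := fun h => hyy (congrArg Prod.snd h)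
  have hne : ∀ n, (sk φ h d b)^[n] (x, y) ≠ (sk φ h d b)^[n] (x, y') :=
    fun n hn => hzz (hy.inj_iter hy' n hn)
  have hfne : (sk φ h d b (x, y)).2 ≠ (sk φ h d b (x, y')).2 := by
    intro h0
    apply hne 1
    rw [Function.iterate_one]
    exact Prod.ext rfl h0
  obtain ⟨-, h2, h3, h4⟩ := sk_good_step H HM hyA hyA' hfne
  obtain ⟨N, hN, hNx, hNy⟩ := hy.common hy'
  have hmono := sk_good_mono H HM he hd hb hy.pre hy'.pre hne (N - 1) 1
  have hN1 : 1 + (N - 1) = N := by omega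
  rw [hN1, hNx, hNy, Function.iterate_one] at hmono
  have hmono' : o v ((sk φ h d b (x, y)).2 - (sk φ h d b (x, y')).2) ≤ o v (y - y') := hmono
  intro η hη hη1
  have := h4 η hη hη1
  have := h3 η hη
  omega

end loc

end Pool.Agent.Helper80.SG
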