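import Mathlib
import Pool.Agent.Helper80.SG.Skew

set_option autoImplicit false

open IsDedekindDomain NumberField Polynomial

namespace Pool.Agent.Helper80.SG

open Pool.Agent.Helper80.UC Pool.Agent.Helper80.QP

/-- the place of `K` below a place of `L` -/
theorem place_below {K L : Type} [Field K] [NumberField K] [Field L] [NumberField L]
    (φ : K →+* L) (w : Pl L) :
    ∃ (v : Pl K) (e : ℕ), 0 < e ∧ ∀ x : K, o w (φ x) = e * o v x := by
  letI : Algebra K L := φ.toAlgebra
  have hφ : ∀ x : K, algebraMap K L x = φ x := fun x => rfl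
  let v : Pl K := ⟨w.asIdeal.under (𝓞 K), Ideal.IsPrime.under (𝓞 K) w.asIdeal,
    Ideal.under_ne_bot (𝓞 K) w.ne_bot⟩
  haveI : w.asIdeal.LiesOver v.asIdeal := Ideal.over_under _
  refine ⟨v, v.asIdeal.ramificationIdx' w.asIdeal, ?_, ?_⟩
  · exact Nat.pos_of_ne_zero (Ideal.IsDedekindDomain.ramificationIdx'_ne_zero_of_liesOver w.asIdeal v.ne_bot)
  · intro x
    have h1 := HeightOneSpectrum.valuation_liesOver L v w x
    simp only [o]
    rw [← hφ, ← h1, WithZero.log_pow, nsmul_eq_mul]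
    ring

/-- an integer divisible by all places in `S` -/
lemma exists_s {K : Type} [Field K] [NumberField K] (S : Set (Pl K)) (hS : S.Finite) :
    ∃ s : 𝓞 K, s ≠ 0 ∧ ∀ v ∈ S, 0 < o v (s : K) := by
  classical
  have h1 : ∀ v : Pl K, ∃ s : 𝓞 K, s ≠ 0 ∧ 0 < o v (s : K) := by
    intro v
    obtain ⟨s, hs, hs0⟩ := Submodule.exists_mem_ne_zero_of_ne_bot v.ne_bot
    refine ⟨s, hs0, ?_⟩
    have h2 : v.valuation K (s : K) < 1 := by
      have := (v.valuation_lt_one_iff_mem (K := K) s).mpr hs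
      exact this
    have hsK : (s : K) ≠ 0 := by simpa using hs0
    rw [← map_one (v.valuation K), val_lt_iff v hsK one_ne_zero, o_one] at h2
    exact h2
  choose s hs0 hs using h1
  refine ⟨∏ v ∈ hS.toFinset, s v, Finset.prod_ne_zero_iff.mpr fun v _ => hs0 v, fun v hv => ?_⟩
  have hcoe : ((∏ u ∈ hS.toFinset, s u : 𝓞 K) : K) = ∏ u ∈ hS.toFinset, (s u : K) := by
    simp
  rw [hcoe, o_prod v _ _ (fun u _ => by simpa using hs0 u)]
  have hnn : ∀ u, 0 ≤ o v (s u : K) := by
    intro u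
    apply o_nonneg
    rw [mem_A]
    exact v.valuation_le_one (s u)
  have := Finset.single_le_sum (f := fun u => o v (s u : K)) (fun i _ => hnn i)
    (hS.mem_toFinset.mpr hv)
  exact (hs v).trans_le this

/-- all but finitely many places of `L` lie above places outside `S` -/
lemma S_up {K L : Type} [Field K] [NumberField K] [Field L] [NumberField L] (φ : K →+* L)
    (S : Set (Pl K)) (hS : S.Finite) :
    ∃ T : Set (Pl L), T.Finite ∧ ∀ w ∉ T, ∃ v ∉ S, ∃ e : ℕ, 0 < e ∧
      ∀ x : K, o w (φ x) = e * o v x := by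
  obtain ⟨s, hs0, hs⟩ := exists_s S hS
  have hsK : (s : K) ≠ 0 := by simpa using hs0
  have hsL : φ (s : K) ≠ 0 := (_root_.map_ne_zero _).mpr hsK
  refine ⟨{w | o w (φ (s : K)) ≠ 0}, fin_o hsL, fun w hw => ?_⟩
  simp only [Set.mem_ofPred_eq, not_not] at hw
  obtain ⟨v, e, he, h⟩ := place_below φ w
  refine ⟨v, fun hv => ?_, e, he, h⟩
  rw [h] at hw
  have h1 := hs v hv
  have h2 : (0 : ℤ) < e := by exact_mod_cast he
  have := mul_pos h2 h1
  omega

/-- the numbers `b x` have the same denominators at `v` -/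
def SD {K : Type} [Field K] [NumberField K] {X : Type} (v : Pl K) (b : X → K) : Prop :=
  (∀ x, b x ∈ A v) ∨ ∃ γ : ℤ, γ < 0 ∧ ∀ x, b x ≠ 0 ∧ o v (b x) = γ

lemma SD_up {K L : Type} [Field K] [NumberField K] [Field L] [NumberField L] (φ : K →+* L)
    {X : Type} {b : X → K} {v : Pl K} {w : Pl L} {e : ℕ} (he : 0 < e)
    (h : ∀ x : K, o w (φ x) = e * o v x) (hb : SD v b) : SD w (fun x => φ (b x)) := by
  have he' : (0 : ℤ) < e := by exact_mod_cast he
  rcases hb with hb | ⟨γ, hγ, hb⟩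
  · left
    intro x
    apply mem_A_of
    rw [h]
    exact mul_nonneg he'.le (o_nonneg v (hb x))
  · right
    refine ⟨e * γ, by nlinarith, fun x => ⟨(_root_.map_ne_zero _).mpr (hb x).1, ?_⟩⟩
    rw [h, (hb x).2]

end Pool.Agent.Helper80.SG
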