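import Mathlib
import Pool.Agent.Helper80.SG.Below

set_option autoImplicit false

open IsDedekindDomain NumberField Polynomial

namespace Pool.Agent.Helper80.SG

open Pool.Agent.Helper80.UC Pool.Agent.Helper80.QP

variable {K : Type} [Field K] [NumberField K]

/-- the abstract finiteness of ratios -/
lemma abs_fin {d : ℕ} {M : Finset K} {S : Set (Pl K)} (H0 : GM0 M d) (hS : S.Finite) {m : ℕ}
    (hd : 4 ≤ d) (hm : 3 ≤ m) (hdm : 5 ≤ d ∨ 5 ≤ m) :
    {t : K | (∀ η ∈ M, η ≠ 1 → t ≠ η) ∧ ∀ v ∉ S, ∃ k : ℤ, ∀ η ∈ M, η ≠ 1 →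
      (m : ℤ) ∣ o v (t - η) - k}.Finite := by
  classical
  have hcard : (M.erase 1).card = d - 1 := by
    rw [Finset.card_erase_of_mem H0.one, H0.card]
  by_cases hd5 : 5 ≤ d
  · have hemb : Nonempty (Fin 4 ↪ (M.erase 1 : Finset K)) := by
      apply Function.Embedding.nonempty_of_card_le
      rw [Fintype.card_fin, Fintype.card_coe, hcard]
      omega
    obtain ⟨g⟩ := hemb
    have hg : ∀ i j : Fin 4, i ≠ j → (g i : K) ≠ g j := fun i j hij h =>
      hij (g.injective (Subtype.ext h))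
    refine (key_fin (m := m) hm (hg 0 1 (by decide)) (hg 0 2 (by decide)) (hg 0 3 (by decide))
      (hg 1 2 (by decide)) (hg 1 3 (by decide)) (hg 2 3 (by decide)) S hS).subset ?_
    rintro t ⟨ht, hv⟩
    have hgM : ∀ i, (g i : K) ∈ M ∧ (g i : K) ≠ 1 := fun i =>
      ⟨Finset.mem_of_mem_erase (g i).2, (Finset.mem_erase.mp (g i).2).1⟩
    have hne : ∀ i, t ≠ g i := fun i => ht _ (hgM i).1 (hgM i).2
    have hn : ∀ i, t - g i ≠ 0 := fun i => sub_ne_zero.mpr (hne i)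
    refine ⟨hne 0, hne 1, hne 2, hne 3, fun v hvS => ?_⟩
    obtain ⟨k, hk⟩ := hv v hvS
    have hk' : ∀ i, (m : ℤ) ∣ o v (t - g i) - k := fun i => hk _ (hgM i).1 (hgM i).2
    rw [o_div v (mul_ne_zero (hn 0) (hn 1)) (mul_ne_zero (hn 2) (hn 3)), o_mul v (hn 0) (hn 1),
      o_mul v (hn 2) (hn 3)]
    have h1 := dvd_sub (dvd_add (hk' 0) (hk' 1)) (dvd_add (hk' 2) (hk' 3))
    have e : ∀ a b c d' k : ℤ, a + b - (c + d') = (a - k) + (b - k) - ((c - k) + (d' - k)) := by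
      intros; ring
    rw [e _ _ _ _ k]
    exact h1
  · have hm5 : 5 ≤ m := by omega
    have hemb : Nonempty (Fin 3 ↪ (M.erase 1 : Finset K)) := by
      apply Function.Embedding.nonempty_of_card_le
      rw [Fintype.card_fin, Fintype.card_coe, hcard]
      omega
    obtain ⟨g⟩ := hemb
    have hg : ∀ i j : Fin 3, i ≠ j → (g i : K) ≠ g j := fun i j hij h =>
      hij (g.injective (Subtype.ext h))
    refine (key_fin3 (m := m) hm5 (hg 0 1 (by decide)) (hg 0 2 (by decide))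
      (hg 1 2 (by decide)) S hS).subset ?_
    rintro t ⟨ht, hv⟩
    have hgM : ∀ i, (g i : K) ∈ M ∧ (g i : K) ≠ 1 := fun i =>
      ⟨Finset.mem_of_mem_erase (g i).2, (Finset.mem_erase.mp (g i).2).1⟩
    have hne : ∀ i, t ≠ g i := fun i => ht _ (hgM i).1 (hgM i).2
    have hn : ∀ i, t - g i ≠ 0 := fun i => sub_ne_zero.mpr (hne i)
    refine ⟨hne 0, hne 1, hne 2, fun v hvS => ?_⟩
    obtain ⟨k, hk⟩ := hv v hvS
    have hk' : ∀ i, (m : ℤ) ∣ o v (t - g i) - k := fun i => hk _ (hgM i).1 (hgM i).2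
    rw [o_div v (mul_ne_zero (hn 0) (hn 1)) (pow_ne_zero 2 (hn 2)), o_mul v (hn 0) (hn 1), o_pow]
    have h1 := dvd_sub (dvd_add (hk' 0) (hk' 1)) (Dvd.dvd.mul_left (hk' 2) 2)
    have e : ∀ a b c k : ℤ, a + b - ((2 : ℕ) : ℤ) * c = (a - k) + (b - k) - 2 * (c - k) := by
      intros; push_cast; ring
    rw [e _ _ _ k]
    exact h1

/-- **Finiteness of the ratios in a fibre, uniform in the base.** -/
theorem sk_ratio {d e : ℕ} {M : Finset K} {S : Set (Pl K)} (H0 : GM0 M d) (hS : S.Finite)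
    (HM : ∀ v ∉ S, GM v M d) (he : 1 ≤ e) (hd : 4 ≤ d) (hde : 5 ≤ d * e) :
    ∃ F : Set K, F.Finite ∧ ∀ (X : Type) (φ : X → X) (h : X → K → K) (b : X → K),
      (∀ v ∉ S, ∀ x, GH v (h x) e) → (∀ v ∉ S, SD v b) → ∀ (x : X) (y y' : K),
      Per (sk φ h d b) (x, y) → Per (sk φ h d b) (x, y') →
      y ≠ y' → h x y' ≠ 0 → h x y / h x y' ∈ F := by
  classical
  have hmZ : ((d * e - 1 : ℕ) : ℤ) = d * e - 1 := by
    push_cast [show 1 ≤ d * e by omega]; ring
  refine ⟨_, abs_fin (m := d * e - 1) H0 hS hd (by omega) ?_, ?_⟩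
  · by_cases h5 : 5 ≤ d
    · exact Or.inl h5
    · right
      have h4 : d = 4 := by omega
      subst h4
      omega
  intro X φ h b HG Hb x y y' hy hy' hyy hy0
  have hzz : ((x, y) : X × K) ≠ (x, y') := fun h => hyy (congrArg Prod.snd h)
  have hpow : ∀ η ∈ M, h x y ≠ η * h x y' := by
    intro η hη h0
    apply hzz
    refine hy.inj hy' ?_
    have h1 : h x y ^ d = h x y' ^ d := by
      have := H0.fac (h x y) (h x y')
      rw [Finset.prod_eq_zero (f := fun η => h x y - η * h x y') hη (sub_eq_zero.mpr h0)] at this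
      exact sub_eq_zero.mp this
    refine Prod.ext rfl ?_
    show h x y ^ d + b x = h x y' ^ d + b x
    rw [h1]
  have hid : ∀ η, h x y / h x y' - η = (h x y - η * h x y') / h x y' := by
    intro η; field_simp
  refine ⟨fun η hη _ h0 => hpow η hη (by rw [← h0, div_mul_cancel₀ _ hy0]), fun v hv => ?_⟩
  rcases Hb v hv with hb | ⟨γ, hγ, hb⟩
  · refine ⟨- o v (h x y'), fun η hη hη1 => ?_⟩
    have hn0 : h x y - η * h x y' ≠ 0 := sub_ne_zero.mpr (hpow η hη)
    rw [hid, o_div v hn0 hy0, sk_good_unit (fun x => HG v hv x) (HM v hv) he (by omega) hb hy hy'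
      hyy η hη hη1]
    simp
  · refine ⟨0, fun η hη hη1 => ?_⟩
    have hn0 : h x y - η * h x y' ≠ 0 := sub_ne_zero.mpr (hpow η hη)
    rw [hid, o_div v hn0 hy0, sub_zero, hmZ]
    exact sk_bad_eta (fun x => HG v hv x) (HM v hv) he (by omega) hγ hb hy.pre hy'.pre hη
      (hpow η hη)

end Pool.Agent.Helper80.SG
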