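import Mathlib
import Pool.Agent.Helper80.SG.Ratio

set_option autoImplicit false

open IsDedekindDomain NumberField Polynomial

namespace Pool.Agent.Helper80.SG

open Pool.Agent.Helper80.UC Pool.Agent.Helper80.QP

/-- allowed inner polynomials -/
structure SP {K : Type} [Field K] [NumberField K] (S : Set (Pl K)) (e : ℕ) (h : K[X]) : Prop where
  deg : h.natDegree = e
  int : ∀ v ∉ S, ∀ i, h.coeff i ∈ A v
  lead : ∀ v ∉ S, (h.coeff e)⁻¹ ∈ A v

/-- **Ratio theorem over `K`**, uniform in the base and in the `S`-integral data. -/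
theorem ratioS (K : Type) [Field K] [NumberField K] (S : Set (Pl K)) (hS : S.Finite) {d e : ℕ}
    (he : 1 ≤ e) (hd : 4 ≤ d) (hde : 5 ≤ d * e) :
    ∃ F : Set K, F.Finite ∧ ∀ (X : Type) (φ : X → X) (h : X → K[X]) (b : X → K),
      (∀ x, SP S e (h x)) → (∀ v ∉ S, SD v b) → ∀ (x : X) (y y' : K),
      Per (sk φ (fun x z => (h x).eval z) d b) (x, y) →
      Per (sk φ (fun x z => (h x).eval z) d b) (x, y') →
      y ≠ y' → (h x).eval y' ≠ 0 → (h x).eval y / (h x).eval y' ∈ F := by
  have : NeZero d := ⟨by omega⟩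
  let L := CyclotomicField d K
  have hζ : IsPrimitiveRoot (IsCyclotomicExtension.zeta d K L) d :=
    IsCyclotomicExtension.zeta_spec d K L
  obtain ⟨S1, hS1, HM⟩ := GM_of (by omega) hζ
  obtain ⟨T, hT, HT⟩ := S_up (algebraMap K L) S hS
  have he0 : ((e : ℕ) : L) ≠ 0 := by exact_mod_cast (by omega : e ≠ 0)
  obtain ⟨F, hF, H⟩ := sk_ratio (S := S1 ∪ (T ∪ {w | o w ((e : ℕ) : L) ≠ 0}))
    (GM0_of (by omega) hζ) (hS1.union (hT.union (fin_o he0)))
    (fun v hv => HM v (fun h => hv (Or.inl h))) he hd hde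
  refine ⟨(algebraMap K L) ⁻¹' F, hF.preimage (algebraMap K L).injective.injOn, ?_⟩
  intro X φ h b HP Hb x y y' hy hy' hyy hy0
  have hev : ∀ (x : X) (z : K), ((h x).map (algebraMap K L)).eval (algebraMap K L z) =
      algebraMap K L ((h x).eval z) := by
    intro x z
    rw [eval_map_apply]
  let g : X × K → X × L := fun z => (z.1, algebraMap K L z.2)
  have hsc : ∀ z : X × K, g (sk φ (fun x z => (h x).eval z) d b z) =
      sk φ (fun x z => ((h x).map (algebraMap K L)).eval z) d
        (fun x => algebraMap K L (b x)) (g z) := by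
    rintro ⟨x, z⟩
    simp only [g, sk, hev, map_add, map_pow]
  have hPG : ∀ w ∉ S1 ∪ (T ∪ {w | o w ((e : ℕ) : L) ≠ 0}), ∀ x,
      GH w (fun z => ((h x).map (algebraMap K L)).eval z) e := by
    intro w hw x
    simp only [Set.mem_union, Set.mem_ofPred_eq, not_or, not_not] at hw
    obtain ⟨hw1, hwT, hwe⟩ := hw
    obtain ⟨v, hv, r, hr, hrw⟩ := HT w hwT
    have hr' : (0 : ℤ) < r := by exact_mod_cast hr
    have hl0 : (h x).coeff e ≠ 0 := by
      rw [← (HP x).deg]
      intro h0
      rw [coeff_natDegree, leadingCoeff_eq_zero] at h0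
      have := (HP x).deg
      rw [h0, natDegree_zero] at this
      omega
    have hl0' : algebraMap K L ((h x).coeff e) ≠ 0 := (_root_.map_ne_zero _).mpr hl0
    refine GH_poly he ⟨?_, fun i => ?_, ?_, ?_, hwe⟩
    · rw [natDegree_map]; exact (HP x).deg
    · rw [coeff_map]
      apply mem_A_of
      rw [hrw]
      exact mul_nonneg hr'.le (o_nonneg v ((HP x).int v hv i))
    · rw [coeff_map]
      exact hl0'
    · rw [coeff_map, hrw]
      have h1 := o_nonneg v ((HP x).int v hv e)
      have h2 := o_nonneg v ((HP x).lead v hv)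
      rw [o_inv] at h2
      have h3 : o v ((h x).coeff e) = 0 := by omega
      rw [h3, mul_zero]
  have hb' : ∀ w ∉ S1 ∪ (T ∪ {w | o w ((e : ℕ) : L) ≠ 0}), SD w (fun x => algebraMap K L (b x)) := by
    intro w hw
    simp only [Set.mem_union, Set.mem_ofPred_eq, not_or, not_not] at hw
    obtain ⟨v, hv, r, hr, hrw⟩ := HT w hw.2.1
    exact SD_up (algebraMap K L) hr hrw (Hb v hv)
  have h1 := H X φ (fun x z => ((h x).map (algebraMap K L)).eval z)
    (fun x => algebraMap K L (b x)) hPG hb' x (algebraMap K L y) (algebraMap K L y')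
    (hy.push g hsc) (hy'.push g hsc) (fun h0 => hyy ((algebraMap K L).injective h0))
    (by rw [hev]; exact (_root_.map_ne_zero _).mpr hy0)
  rw [hev, hev, ← map_div₀] at h1
  exact h1

/-- the number of periodic points in a fibre -/
theorem fibreS (K : Type) [Field K] [NumberField K] (S : Set (Pl K)) (hS : S.Finite) {d e : ℕ}
    (he : 1 ≤ e) (hd : 4 ≤ d) (hde : 5 ≤ d * e) :
    ∃ B : ℕ, ∀ (X : Type) (φ : X → X) (h : X → K[X]) (b : X → K),
      (∀ x, SP S e (h x)) → (∀ v ∉ S, SD v b) → ∀ (x : X),
      {y : K | Per (sk φ (fun x z => (h x).eval z) d b) (x, y)}.encard ≤ B := by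
  classical
  obtain ⟨F, hF, H⟩ := ratioS K S hS he hd hde
  refine ⟨F.ncard * e + e + 1, fun X φ h b HP Hb x => ?_⟩
  set G := sk φ (fun x z => (h x).eval z) d b with hG
  have hdeg := (HP x).deg
  let R : K → Finset K := fun g => ((h x) - C g).roots.toFinset
  have hRne : ∀ g, h x - C g ≠ 0 := by
    intro g h0
    have h1 : h x = C g := sub_eq_zero.mp h0
    have h2 := congrArg natDegree h1
    rw [natDegree_C] at h2
    omega
  have hRc : ∀ g, (R g).card ≤ e := by
    intro g
    refine (Multiset.toFinset_card_le _).trans ((card_roots' _).trans ?_)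
    rw [natDegree_sub_C, hdeg]
  have hRm : ∀ g y, (h x).eval y = g → y ∈ R g := by
    intro g y hy
    rw [Multiset.mem_toFinset, mem_roots (hRne _)]
    show (h x - C g).eval y = 0
    rw [eval_sub, eval_C, hy, sub_self]
  by_cases hy : ∃ y, Per G (x, y) ∧ (h x).eval y ≠ 0
  · obtain ⟨y, hy, hy0⟩ := hy
    have hsub : {z : K | Per G (x, z)} ⊆
        ((insert y (hF.toFinset.biUnion fun g => R (g * (h x).eval y)) : Finset K) : Set K) := by
      intro z hz
      rw [Finset.mem_coe, Finset.mem_insert, Finset.mem_biUnion]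
      by_cases hzy : z = y
      · exact Or.inl hzy
      · right
        refine ⟨(h x).eval z / (h x).eval y, ?_, ?_⟩
        · rw [hF.mem_toFinset]
          exact H X φ h b HP Hb x z y hz hy hzy hy0
        · exact hRm _ _ (by rw [div_mul_cancel₀ _ hy0])
    refine (Set.encard_le_encard hsub).trans ?_
    rw [Set.encard_coe_eq_coe_finsetCard]
    have h1 : (insert y (hF.toFinset.biUnion fun g => R (g * (h x).eval y)) : Finset K).card ≤
        hF.toFinset.card * e + 1 := by
      refine (Finset.card_insert_le _ _).trans ?_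
      have := Finset.card_biUnion_le_card_mul hF.toFinset (fun g => R (g * (h x).eval y)) e
        (fun g _ => hRc _)
      omega
    have h2 : hF.toFinset.card = F.ncard := (Set.ncard_eq_toFinset_card F hF).symm
    rw [h2] at h1
    exact_mod_cast (by omega)
  · have hsub : {z : K | Per G (x, z)} ⊆ ((R 0 : Finset K) : Set K) := by
      intro z hz
      rw [Finset.mem_coe]
      apply hRm
      by_contra h0
      exact hy ⟨z, hz, h0⟩
    refine (Set.encard_le_encard hsub).trans ?_
    rw [Set.encard_coe_eq_coe_finsetCard]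
    have := hRc 0
    exact_mod_cast (by omega)

end Pool.Agent.Helper80.SG
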