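import Mathlib
import Pool.Agent.Helper80.SG.SInt
import Pool.Agent.Helper80.UC.PN

set_option autoImplicit false

open IsDedekindDomain NumberField Polynomial Matrix

namespace Pool.Agent.Helper80.SG

open Pool.Agent.Helper80.UC Pool.Agent.Helper80.QP

section field

variable {K : Type} [Field K]

/-- `x₀^d p(x₁/x₀)` for a polynomial of degree at most `d` -/
def hom (d : ℕ) (p : K[X]) (x0 x1 : K) : K :=
  ∑ j ∈ Finset.range (d + 1), p.coeff j * x1 ^ j * x0 ^ (d - j)

lemma hom_smul (d : ℕ) (p : K[X]) (a x0 x1 : K) : hom d p (a * x0) (a * x1) = a ^ d * hom d p x0 x1 := by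
  rw [hom, hom, Finset.mul_sum]
  apply Finset.sum_congr rfl
  intro j hj
  have hjd : j < d + 1 := Finset.mem_range.mp hj
  have h1 : a ^ d = a ^ j * a ^ (d - j) := by
    rw [← pow_add]; congr 1; omega
  rw [h1, mul_pow, mul_pow]
  ring

lemma hom_one (d : ℕ) (p : K[X]) (hp : p.natDegree ≤ d) (x1 : K) : hom d p 1 x1 = p.eval x1 := by
  rw [hom, eval_eq_sum_range' (Nat.lt_succ_of_le hp)]
  simp

lemma hom_zero (d : ℕ) (p : K[X]) (x1 : K) : hom d p 0 x1 = p.coeff d * x1 ^ d := by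
  rw [hom, Finset.sum_range_succ, Finset.sum_eq_zero, Nat.sub_self, pow_zero, mul_one, zero_add]
  intro j hj
  have hjd : j < d := Finset.mem_range.mp hj
  rw [zero_pow (by omega), mul_zero]

/-- `[x₀^d : x₁^d + c x₀^d : x_i^d + x₀^d p_i(x₁/x₀)]` on homogeneous coordinates -/
def triMap {M : ℕ} (d : ℕ) (c : K) (p : Fin M → K[X]) (x : Fin (M + 2) → K) : Fin (M + 2) → K :=
  Fin.cons (x 0 ^ d) (Fin.cons (x 1 ^ d + c * x 0 ^ d) fun i =>
    x i.succ.succ ^ d + hom d (p i) (x 0) (x 1))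

lemma triMap_zero {M d : ℕ} (c : K) (p : Fin M → K[X]) (x : Fin (M + 2) → K) :
    triMap d c p x 0 = x 0 ^ d := rfl

lemma triMap_one {M d : ℕ} (c : K) (p : Fin M → K[X]) (x : Fin (M + 2) → K) :
    triMap d c p x 1 = x 1 ^ d + c * x 0 ^ d := rfl

lemma triMap_succ {M d : ℕ} (c : K) (p : Fin M → K[X]) (x : Fin (M + 2) → K) (i : Fin M) :
    triMap d c p x i.succ.succ = x i.succ.succ ^ d + hom d (p i) (x 0) (x 1) := rfl

lemma triMap_smul {M d : ℕ} (c : K) (p : Fin M → K[X]) (a : K) (x : Fin (M + 2) → K) :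
    triMap d c p (a • x) = a ^ d • triMap d c p x := by
  ext i
  refine Fin.cases ?_ (fun i => ?_) i
  · simp [triMap_zero, mul_pow]
  · refine Fin.cases ?_ (fun i => ?_) i
    · show triMap d c p (a • x) 1 = (a ^ d • triMap d c p x) 1
      simp only [triMap_one, Pi.smul_apply, smul_eq_mul, mul_pow]
      ring
    · simp only [triMap_succ, Pi.smul_apply, smul_eq_mul, mul_pow, hom_smul]
      ring

/-- iterates when `x₀ = 1` -/
lemma triMap_iter_one {M d : ℕ} (c : K) (p : Fin M → K[X]) (hp : ∀ i, (p i).natDegree ≤ d)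
    (n : ℕ) (x : Fin (M + 2) → K) (hx : x 0 = 1) : ((triMap d c p)^[n] x) 0 = 1 ∧
      ((triMap d c p)^[n] x) 1 = (fun z => z ^ d + c)^[n] (x 1) ∧
      ∀ i : Fin M, (((fun z => z ^ d + c)^[n] (x 1)), ((triMap d c p)^[n] x) i.succ.succ) =
        (sk (fun z => z ^ d + c) (fun _ z => z) d (fun z => (p i).eval z))^[n]
          (x 1, x i.succ.succ) := by
  induction n with
  | zero => simp [hx]
  | succ n ih =>
    obtain ⟨h0, h1, h2⟩ := ih
    refine ⟨?_, ?_, fun i => ?_⟩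
    · rw [Function.iterate_succ_apply', triMap_zero, h0, one_pow]
    · rw [Function.iterate_succ_apply', Function.iterate_succ_apply', triMap_one, h0, h1]
      simp
    · rw [Function.iterate_succ_apply', Function.iterate_succ_apply', Function.iterate_succ_apply',
        ← h2 i, triMap_succ, h0, h1, hom_one d _ (hp i)]
      rfl

/-- iterates when `x₀ = 0`, `x₁ = 1` -/
lemma triMap_iter_inf {M d : ℕ} (hd : d ≠ 0) (c : K) (p : Fin M → K[X]) (n : ℕ)
    (x : Fin (M + 2) → K) (hx : x 0 = 0) (hx1 : x 1 = 1) : ((triMap d c p)^[n] x) 0 = 0 ∧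
      ((triMap d c p)^[n] x) 1 = 1 ∧
      ∀ i : Fin M, ((triMap d c p)^[n] x) i.succ.succ =
        (fun z => z ^ d + (p i).coeff d)^[n] (x i.succ.succ) := by
  induction n with
  | zero => simp [hx, hx1]
  | succ n ih =>
    obtain ⟨h0, h1, h2⟩ := ih
    refine ⟨?_, ?_, fun i => ?_⟩
    · rw [Function.iterate_succ_apply', triMap_zero, h0, zero_pow hd]
    · rw [Function.iterate_succ_apply', triMap_one, h0, h1, zero_pow hd]; simp
    · rw [Function.iterate_succ_apply', Function.iterate_succ_apply', ← h2 i, triMap_succ, h0, h1,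
        hom_zero]
      simp

/-- iterates when `x₀ = x₁ = 0` -/
lemma triMap_iter_zero {M d : ℕ} (hd : d ≠ 0) (c : K) (p : Fin M → K[X]) (n : ℕ)
    (x : Fin (M + 2) → K) (hx : x 0 = 0) (hx1 : x 1 = 0) : ((triMap d c p)^[n] x) 0 = 0 ∧
      ((triMap d c p)^[n] x) 1 = 0 ∧
      ∀ i : Fin (M + 2), ((triMap d c p)^[n] x) i = (fun z => z ^ d + 0)^[n] (x i) := by
  induction n with
  | zero => simp [hx, hx1]
  | succ n ih =>
    obtain ⟨h0, h1, h2⟩ := ih
    have h3 : ((triMap d c p)^[n + 1] x) 0 = 0 := by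
      rw [Function.iterate_succ_apply', triMap_zero, h0, zero_pow hd]
    have h4 : ((triMap d c p)^[n + 1] x) 1 = 0 := by
      rw [Function.iterate_succ_apply', triMap_one, h0, h1, zero_pow hd]; simp
    refine ⟨h3, h4, fun i => ?_⟩
    rw [Function.iterate_succ_apply', Function.iterate_succ_apply', ← h2 i]
    refine Fin.cases ?_ (fun i => ?_) i
    · rw [triMap_zero]; simp
    · refine Fin.cases ?_ (fun i => ?_) i
      · show triMap d c p _ 1 = _
        rw [triMap_one, h0, zero_pow hd]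
        simp
      · rw [triMap_succ, h0, h1, hom_zero, zero_pow hd]; simp

/-- homogeneity of iterates -/
lemma iter_smul {n d : ℕ} {G : (Fin n → K) → (Fin n → K)} (hG : ∀ (a : K) (x : Fin n → K), G (a • x) = a ^ d • G x)
    (k : ℕ) (a : K) (ha : a ≠ 0) (x : Fin n → K) : ∃ b : K, b ≠ 0 ∧ G^[k] (a • x) = b • G^[k] x := by
  induction k with
  | zero => exact ⟨a, ha, by simp⟩
  | succ k ih =>
    obtain ⟨b, hb, h⟩ := ih
    refine ⟨b ^ d, pow_ne_zero _ hb, ?_⟩
    rw [Function.iterate_succ_apply', Function.iterate_succ_apply', h, hG]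

/-- scaling at a coordinate which stays equal to one -/
lemma norm_at {n d : ℕ} {G : (Fin n → K) → (Fin n → K)}
    (hG : ∀ (a : K) (x : Fin n → K), G (a • x) = a ^ d • G x) (x : Fin n → K) (j : Fin n)
    (hj : x j ≠ 0) (hone : ∀ k : ℕ, (G^[k] ((x j)⁻¹ • x)) j = 1) (k l : ℕ) (a : K)
    (h : G^[l] x = a • G^[k] x) : G^[l] ((x j)⁻¹ • x) = G^[k] ((x j)⁻¹ • x) := by
  obtain ⟨b1, hb1, e1⟩ := iter_smul hG l (x j)⁻¹ (inv_ne_zero hj) x
  obtain ⟨b2, hb2, e2⟩ := iter_smul hG k (x j)⁻¹ (inv_ne_zero hj) x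
  have key : G^[l] ((x j)⁻¹ • x) = (b1 * a * b2⁻¹) • G^[k] ((x j)⁻¹ • x) := by
    rw [e1, e2, h, smul_smul, smul_smul]
    congr 1
    field_simp
  have hkj := congrFun key j
  rw [Pi.smul_apply, hone, hone, smul_eq_mul, mul_one] at hkj
  rw [← hkj, one_smul] at key
  exact key

/-- normal form of projectively preperiodic vectors -/
lemma tri_norm {M d : ℕ} (hd : d ≠ 0) (c : K) (p : Fin M → K[X]) (x : Fin (M + 2) → K)
    (hx : x ≠ 0) (m n : ℕ) (a : K) (h : (triMap d c p)^[n] x = a • (triMap d c p)^[m] x) :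
    ∃ (b : K) (y : Fin (M + 2) → K), b ≠ 0 ∧ x = b • y ∧
      (triMap d c p)^[n] y = (triMap d c p)^[m] y ∧
      (y 0 = 1 ∨ (y 0 = 0 ∧ y 1 = 1) ∨ (y 0 = 0 ∧ y 1 = 0)) := by
  have hsm := triMap_smul (d := d) c p
  by_cases h0 : x 0 = 0
  · by_cases h1 : x 1 = 0
    · obtain ⟨j, hj⟩ : ∃ j, x j ≠ 0 := by
        by_contra hcon
        push Not at hcon
        exact hx (funext hcon)
      refine ⟨x j, (x j)⁻¹ • x, hj, by rw [smul_smul, mul_inv_cancel₀ hj, one_smul], ?_, ?_⟩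
      · refine norm_at hsm x j hj (fun k => ?_) m n a h
        rw [(triMap_iter_zero hd c p k ((x j)⁻¹ • x) (by simp [h0]) (by simp [h1])).2.2 j]
        have : ((x j)⁻¹ • x) j = 1 := by simp [hj]
        rw [this]
        apply Function.iterate_fixed
        simp
      · right; right
        simp [h0, h1]
    · refine ⟨x 1, (x 1)⁻¹ • x, h1, by rw [smul_smul, mul_inv_cancel₀ h1, one_smul], ?_, ?_⟩
      · refine norm_at hsm x 1 h1 (fun k => ?_) m n a h
        exact (triMap_iter_inf hd c p k ((x 1)⁻¹ • x) (by simp [h0]) (by simp [h1])).2.1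
      · right; left
        simp [h0, h1]
  · refine ⟨x 0, (x 0)⁻¹ • x, h0, by rw [smul_smul, mul_inv_cancel₀ h0, one_smul], ?_, ?_⟩
    · refine norm_at hsm x 0 h0 (fun k => ?_) m n a h
      induction k with
      | zero => simp [h0]
      | succ k ih => rw [Function.iterate_succ_apply', triMap_zero, ih, one_pow]
    · left
      simp [h0]

/-- invariance of counting under linear conjugacy: the transported set -/
lemma conj_card {n d : ℕ} {G F : (Fin n → K) → (Fin n → K)} (hG : ∀ (a : K) (x : Fin n → K), G (a • x) = a ^ d • G x)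
    (P : Matrix.GeneralLinearGroup (Fin n) K) (u : K) (hu : u ≠ 0)
    (hF : ∀ x, (P : Matrix (Fin n) (Fin n) K) *ᵥ (F x) = u • G ((P : Matrix (Fin n) (Fin n) K) *ᵥ x))
    {S : Finset (Fin n → K)} (hS0 : ∀ x ∈ S, x ≠ 0)
    (hSp : ∀ x ∈ S, ∀ y ∈ S, ∀ a : K, x = a • y → x = y) (Q : ℕ → ℕ → Prop)
    (hS : ∀ x ∈ S, ∃ k l : ℕ, Q k l ∧ ∃ a : K, a ≠ 0 ∧ F^[l] x = a • F^[k] x) :
    ∃ T : Finset (Fin n → K), T.card = S.card ∧ (∀ x ∈ T, x ≠ 0) ∧
      (∀ x ∈ T, ∀ y ∈ T, ∀ a : K, x = a • y → x = y) ∧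
      ∀ x ∈ T, ∃ k l : ℕ, Q k l ∧ ∃ a : K, a ≠ 0 ∧ G^[l] x = a • G^[k] x := by
  classical
  set M : Matrix (Fin n) (Fin n) K := (P : Matrix (Fin n) (Fin n) K) with hM
  have hMinj : Function.Injective (fun x => M *ᵥ x) :=
    Matrix.mulVec_injective_of_isUnit (A := M) P.isUnit
  have hiter : ∀ (k : ℕ) (x : Fin n → K), ∃ b : K, b ≠ 0 ∧
      M *ᵥ (F^[k] x) = b • G^[k] (M *ᵥ x) := by
    intro k x
    induction k with
    | zero => exact ⟨1, one_ne_zero, by simp⟩
    | succ k ih =>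
      obtain ⟨b, hb, h⟩ := ih
      refine ⟨u * b ^ d, mul_ne_zero hu (pow_ne_zero _ hb), ?_⟩
      rw [Function.iterate_succ_apply', Function.iterate_succ_apply', hF, h, hG, smul_smul]
  refine ⟨S.image (fun x => M *ᵥ x), Finset.card_image_of_injective _ hMinj, ?_, ?_, ?_⟩
  · intro z hz
    obtain ⟨x, hx, rfl⟩ := Finset.mem_image.mp hz
    intro h0
    apply hS0 x hx
    apply hMinj
    simpa using h0
  · intro z hz z' hz' a h
    obtain ⟨x, hx, rfl⟩ := Finset.mem_image.mp hz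
    obtain ⟨x', hx', rfl⟩ := Finset.mem_image.mp hz'
    rw [← Matrix.mulVec_smul] at h
    rw [hSp x hx x' hx' a (hMinj h)]
  · intro z hz
    obtain ⟨x, hx, rfl⟩ := Finset.mem_image.mp hz
    obtain ⟨k, l, hQ, a, ha, h⟩ := hS x hx
    obtain ⟨b1, hb1, e1⟩ := hiter l x
    obtain ⟨b2, hb2, e2⟩ := hiter k x
    refine ⟨k, l, hQ, b1⁻¹ * a * b2, mul_ne_zero (mul_ne_zero (inv_ne_zero hb1) ha) hb2, ?_⟩
    have h2 := congrArg (fun z => M *ᵥ z) h
    simp only [Matrix.mulVec_smul, e1, e2] at h2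
    have h3 : G^[l] (M *ᵥ x) = b1⁻¹ • (b1 • G^[l] (M *ᵥ x)) := by
      rw [smul_smul, inv_mul_cancel₀ hb1, one_smul]
    rw [h3, h2, smul_smul, smul_smul, mul_assoc]

end field

end Pool.Agent.Helper80.SG
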