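import Mathlib
import Pool.Agent.Helper80.SG.Tri
import Pool.Agent.Helper80.QP.Lin

set_option autoImplicit false

open IsDedekindDomain NumberField Polynomial Matrix

namespace Pool.Agent.Helper80.SG

open Pool.Agent.Helper80.UC Pool.Agent.Helper80.QP

variable {K : Type} [Field K] [NumberField K]

lemma SP_X (S : Set (Pl K)) : SP S 1 (X : K[X]) := by
  refine ⟨natDegree_X, fun v _ i => ?_, fun v _ => ?_⟩
  · rw [coeff_X]
    split_ifs
    · exact one_mem _
    · exact zero_mem _
  · rw [coeff_X_one, inv_one]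
    exact one_mem _

lemma SD_subsingleton {X : Type} [Subsingleton X] (v : Pl K) (b : X → K) : SD v b := by
  by_cases h : Nonempty X
  · obtain ⟨x0⟩ := h
    by_cases h0 : b x0 ∈ A v
    · left
      intro x
      rw [Subsingleton.elim x x0]; exact h0
    · right
      obtain ⟨h1, h2⟩ := not_mem_A v h0
      refine ⟨o v (b x0), h2, fun x => ?_⟩
      rw [Subsingleton.elim x x0]
      exact ⟨h1, rfl⟩
  · left
    intro x
    exact absurd ⟨x⟩ h

lemma eval_int {v : Pl K} {p : K[X]} (hp : ∀ j, 1 ≤ j → p.coeff j ∈ A v) {x : K} (hx : x ∈ A v) :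
    p.eval x - p.coeff 0 ∈ A v := by
  rw [eval_eq_sum_range, Finset.sum_range_succ']
  simp only [pow_zero, mul_one, add_sub_cancel_right]
  exact sum_mem fun j _ => mul_mem (hp _ (by omega)) (pow_mem hx _)

/-- fibres of the triangular maps -/
theorem tri_fibre (K : Type) [Field K] [NumberField K] (S : Set (Pl K)) (hS : S.Finite) {d : ℕ}
    (hd : 5 ≤ d) : ∃ B : ℕ, ∀ (c : K) (p : K[X]), (∀ v ∉ S, ∀ j, 1 ≤ j → p.coeff j ∈ A v) →
      ∀ x : K, Per (fun z => z ^ d + c) x →
      {y : K | Per (sk (fun z => z ^ d + c) (fun _ z => z) d (fun z => p.eval z)) (x, y)}.encard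
        ≤ B := by
  classical
  have hE := exc_two K hd
  set E : Set K := {c : K | ∃ x y : K, x ≠ y ∧ Per (fun z => z ^ d + c) x ∧
    Per (fun z => z ^ d + c) y} with hEdef
  have hZ : (⋃ c ∈ E, {x : K | Pre (fun z => z ^ d + c) x}).Finite :=
    hE.biUnion fun c _ => northcott K (by omega) c
  set Z : Set K := ⋃ c ∈ E, {x : K | Pre (fun z => z ^ d + c) x} with hZdef
  have hS' : (S ∪ ⋃ z ∈ Z, {v : Pl K | z ∉ A v}).Finite :=
    hS.union (hZ.biUnion fun z _ => fin_A z)
  set S' : Set (Pl K) := S ∪ ⋃ z ∈ Z, {v : Pl K | z ∉ A v} with hS'def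
  obtain ⟨B, hB⟩ := fibreS K S' hS' (d := d) (e := 1) le_rfl (by omega) (by omega)
  refine ⟨B, fun c p hp x hx => ?_⟩
  let XX : Type := {x : K // Per (fun z => z ^ d + c) x}
  let φ : XX → XX := fun x => ⟨x.1 ^ d + c, x.2.map⟩
  let b : XX → K := fun x => p.eval x.1
  have hSD : ∀ v ∉ S', SD v b := by
    intro v hv
    simp only [hS'def, Set.mem_union, Set.mem_iUnion, not_or, not_exists, Set.mem_ofPred_eq,
      not_not] at hv
    obtain ⟨hvS, hvZ⟩ := hv
    by_cases hc : c ∈ E
    · have hint : ∀ x : XX, p.eval x.1 - p.coeff 0 ∈ A v := by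
        intro x
        refine eval_int (hp v hvS) (hvZ x.1 ?_)
        simp only [hZdef, Set.mem_iUnion]
        exact ⟨c, hc, x.2.pre⟩
      by_cases h0 : p.coeff 0 ∈ A v
      · left
        intro x
        have h1 := add_mem (hint x) h0
        rwa [sub_add_cancel] at h1
      · right
        obtain ⟨h1, h2⟩ := not_mem_A v h0
        refine ⟨o v (p.coeff 0), h2, fun x => ?_⟩
        have h3 := o_add_lt' v h1 (y := p.eval x.1 - p.coeff 0) (Or.inr (by
          have := o_nonneg v (hint x)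
          omega))
        rw [add_sub_cancel] at h3
        exact h3
    · have : Subsingleton XX := by
        constructor
        intro a b'
        by_contra hab
        exact hc ⟨a.1, b'.1, fun h => hab (Subtype.ext h), a.2, b'.2⟩
      exact SD_subsingleton v b
  have h1 := hB XX φ (fun _ => X) b (fun _ => SP_X S') hSD ⟨x, hx⟩
  refine (Set.encard_le_encard ?_).trans h1
  intro y hy
  let g : XX × K → K × K := fun z => (z.1.1, z.2)
  have hg : Function.Injective g := by
    rintro ⟨a, a'⟩ ⟨b', b''⟩ h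
    simp only [g, Prod.mk.injEq] at h
    exact Prod.ext (Subtype.ext h.1) h.2
  have hsc : ∀ z, g (sk φ (fun _ z => (X : K[X]).eval z) d b z) =
      sk (fun z => z ^ d + c) (fun _ z => z) d (fun z => p.eval z) (g z) := by
    rintro ⟨a, a'⟩
    simp only [g, sk, φ, b, eval_X]
  exact Per.pull g hg hsc hy

/-- **Uniform bound for the periodic points of the triangular family.** -/
theorem tri_per (K : Type) [Field K] [NumberField K] (S : Set (Pl K)) (hS : S.Finite) (M : ℕ)
    {d : ℕ} (hd : 5 ≤ d) : ∃ C : ℕ, ∀ (c : K) (p : Fin M → K[X]), (∀ i, (p i).natDegree ≤ d) →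
      (∀ i, ∀ v ∉ S, ∀ j, 1 ≤ j → (p i).coeff j ∈ A v) →
      ∀ T : Finset (Fin (M + 2) → K), (∀ x ∈ T, x ≠ 0) →
      (∀ x ∈ T, ∀ y ∈ T, ∀ a : K, x = a • y → x = y) →
      (∀ x ∈ T, ∃ n : ℕ, 0 < n ∧ ∃ a : K, (triMap d c p)^[n] x = a • x) → T.card ≤ C := by
  classical
  obtain ⟨B1, hB1⟩ := UB1 K hd
  obtain ⟨B2, hB2⟩ := tri_fibre K S hS hd
  have hfin1 : ∀ c : K, {x : K | Per (fun z => z ^ d + c) x}.Finite := fun c =>
    (Set.finite_of_encard_le_coe (hB1 c)).subset fun x hx => hx.pre
  let E1 : K → Finset K := fun c => (hfin1 c).toFinset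
  have hE1 : ∀ c x, x ∈ E1 c ↔ Per (fun z => z ^ d + c) x := by
    intro c x
    simp [E1]
  have hE1c : ∀ c, (E1 c).card ≤ B1 := by
    intro c
    have h1 : {x : K | Per (fun z => z ^ d + c) x}.encard ≤ B1 :=
      (Set.encard_le_encard fun x hx => Per.pre hx).trans (hB1 c)
    rw [(hfin1 c).encard_eq_coe_toFinset_card] at h1
    exact_mod_cast h1
  refine ⟨B1 * B2 ^ M + B1 ^ M + B1 ^ (M + 2), ?_⟩
  intro c p hpd hp T hT0 hTp hT
  have hd0 : d ≠ 0 := by omega
  have hfin2 : ∀ (i : Fin M) (x : K), {y : K | Per (fun z => z ^ d + c) x ∧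
      Per (sk (fun z => z ^ d + c) (fun _ z => z) d (fun z => (p i).eval z)) (x, y)}.Finite := by
    intro i x
    by_cases hx : Per (fun z => z ^ d + c) x
    · exact (Set.finite_of_encard_le_coe (hB2 c (p i) (hp i) x hx)).subset fun y hy => hy.2
    · convert Set.finite_empty
      ext y
      simp [hx]
  let E2 : Fin M → K → Finset K := fun i x => (hfin2 i x).toFinset
  have hE2c : ∀ i x, (E2 i x).card ≤ B2 := by
    intro i x
    by_cases hx : Per (fun z => z ^ d + c) x
    · have h1 : {y : K | Per (fun z => z ^ d + c) x ∧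
          Per (sk (fun z => z ^ d + c) (fun _ z => z) d (fun z => (p i).eval z)) (x, y)}.encard
          ≤ B2 := (Set.encard_le_encard fun y hy => hy.2).trans (hB2 c (p i) (hp i) x hx)
      rw [(hfin2 i x).encard_eq_coe_toFinset_card] at h1
      exact_mod_cast h1
    · have : E2 i x = ∅ := by
        ext y
        simp [E2, hx]
      rw [this]; simp
  -- normal forms
  have hnorm : ∀ x ∈ T, ∃ (b : K) (y : Fin (M + 2) → K), b ≠ 0 ∧ x = b • y ∧
      ((y 0 = 1 ∧ y 1 ∈ E1 c ∧ ∀ i : Fin M, y i.succ.succ ∈ E2 i (y 1)) ∨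
        (y 0 = 0 ∧ y 1 = 1 ∧ ∀ i : Fin M, y i.succ.succ ∈ E1 ((p i).coeff d)) ∨
        ∀ i, y i ∈ E1 0) := by
    intro x hx
    obtain ⟨n, hn, a, h⟩ := hT x hx
    obtain ⟨b, y, hb, hxy, hy, hy0⟩ := tri_norm hd0 c p x (hT0 x hx) 0 n a h
    refine ⟨b, y, hb, hxy, ?_⟩
    rw [Function.iterate_zero, id_eq] at hy
    rcases hy0 with hy0 | ⟨hy0, hy1⟩ | ⟨hy0, hy1⟩
    · left
      obtain ⟨-, h1, h2⟩ := triMap_iter_one (d := d) c p hpd n y hy0
      rw [hy] at h1 h2
      have hP1 : Per (fun z => z ^ d + c) (y 1) := ⟨n, hn, h1.symm⟩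
      refine ⟨hy0, (hE1 _ _).mpr hP1, fun i => ?_⟩
      have h3 : y i.succ.succ ∈ {y' : K | Per (fun z => z ^ d + c) (y 1) ∧
          Per (sk (fun z => z ^ d + c) (fun _ z => z) d (fun z => (p i).eval z)) (y 1, y')} := by
        refine ⟨hP1, n, hn, ?_⟩
        rw [← h2 i, ← h1]
      exact (hfin2 i (y 1)).mem_toFinset.mpr h3
    · right; left
      refine ⟨hy0, hy1, fun i => ?_⟩
      rw [hE1]
      refine ⟨n, hn, ?_⟩
      have h1 := (triMap_iter_inf hd0 c p n y hy0 hy1).2.2 i
      rw [hy] at h1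
      exact h1.symm
    · right; right
      intro i
      rw [hE1]
      refine ⟨n, hn, ?_⟩
      have h1 := (triMap_iter_zero hd0 c p n y hy0 hy1).2.2 i
      rw [hy] at h1
      exact h1.symm
  choose! b y hb hy hper using hnorm
  have hyinj : Set.InjOn y T := by
    intro x hx x' hx' h
    refine hTp x hx x' hx' (b x * (b x')⁻¹) ?_
    have h2 : (b x')⁻¹ • x' = y x' := by
      have h3 := congrArg (fun z => (b x')⁻¹ • z) (hy x' hx')
      simp only [smul_smul, inv_mul_cancel₀ (hb x' hx'), one_smul] at h3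
      exact h3
    calc x = b x • y x := hy x hx
      _ = b x • y x' := by rw [h]
      _ = (b x * (b x')⁻¹) • x' := by rw [← h2, smul_smul]
  let F1 : K → Fin (M + 2) → Finset K := fun x =>
    Fin.cons {1} (Fin.cons {x} (fun i => E2 i x))
  let F2 : Fin (M + 2) → Finset K := fun _ => E1 0
  let F3 : Fin (M + 2) → Finset K := Fin.cons {0} (Fin.cons {1} (fun i => E1 ((p i).coeff d)))
  have hsub : T.image y ⊆ ((E1 c).biUnion (fun x => Fintype.piFinset (F1 x)) ∪
      Fintype.piFinset F3) ∪ Fintype.piFinset F2 := by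
    intro z hz
    obtain ⟨x, hx, rfl⟩ := Finset.mem_image.mp hz
    rw [Finset.mem_union, Finset.mem_union, Finset.mem_biUnion, Fintype.mem_piFinset,
      Fintype.mem_piFinset]
    rcases hper x hx with ⟨h0, h1, h2⟩ | ⟨h0, h1, h2⟩ | h0
    · left; left
      refine ⟨y x 1, h1, ?_⟩
      rw [Fintype.mem_piFinset]
      intro i
      refine Fin.cases ?_ (fun i => ?_) i
      · simpa [F1] using h0
      · refine Fin.cases ?_ (fun i => ?_) i
        · show y x 1 ∈ ({y x 1} : Finset K)
          simp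
        · exact h2 i
    · left; right
      intro i
      refine Fin.cases ?_ (fun i => ?_) i
      · simpa [F3] using h0
      · refine Fin.cases ?_ (fun i => ?_) i
        · show y x 1 ∈ ({1} : Finset K)
          simpa using h1
        · exact h2 i
    · right
      exact h0
  have hcard1 : ∀ x ∈ E1 c, (Fintype.piFinset (F1 x)).card ≤ B2 ^ M := by
    intro x _
    rw [Fintype.card_piFinset, Fin.prod_univ_succ, Fin.prod_univ_succ]
    simp only [F1, Fin.cons_zero, Fin.cons_succ, Finset.card_singleton, one_mul]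
    calc ∏ i, (E2 i x).card ≤ ∏ _i : Fin M, B2 :=
          Finset.prod_le_prod' fun i _ => hE2c i x
      _ = B2 ^ M := by simp
  have hcard2 : (Fintype.piFinset F2).card ≤ B1 ^ (M + 2) := by
    rw [Fintype.card_piFinset]
    calc ∏ i, (F2 i).card ≤ ∏ _i : Fin (M + 2), B1 := Finset.prod_le_prod' fun i _ => hE1c 0
      _ = B1 ^ (M + 2) := by simp
  have hcard3 : (Fintype.piFinset F3).card ≤ B1 ^ M := by
    rw [Fintype.card_piFinset, Fin.prod_univ_succ, Fin.prod_univ_succ]
    simp only [F3, Fin.cons_zero, Fin.cons_succ, Finset.card_singleton, one_mul]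
    calc ∏ i, (E1 ((p i).coeff d)).card ≤ ∏ _i : Fin M, B1 :=
          Finset.prod_le_prod' fun i _ => hE1c _
      _ = B1 ^ M := by simp
  calc T.card = (T.image y).card := (Finset.card_image_of_injOn hyinj).symm
    _ ≤ _ := Finset.card_le_card hsub
    _ ≤ ((E1 c).biUnion (fun x => Fintype.piFinset (F1 x)) ∪ Fintype.piFinset F3).card +
        (Fintype.piFinset F2).card := Finset.card_union_le _ _
    _ ≤ (((E1 c).biUnion (fun x => Fintype.piFinset (F1 x))).card + (Fintype.piFinset F3).card) +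
        (Fintype.piFinset F2).card := add_le_add (Finset.card_union_le _ _) le_rfl
    _ ≤ B1 * B2 ^ M + B1 ^ M + B1 ^ (M + 2) := by
        refine add_le_add (add_le_add ?_ hcard3) hcard2
        refine (Finset.card_biUnion_le_card_mul _ _ _ hcard1).trans ?_
        exact Nat.mul_le_mul_right _ (hE1c c)

end Pool.Agent.Helper80.SG
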