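import Mathlib
import Pool.Agent.Helper80.SG.TriPer

set_option autoImplicit false

open IsDedekindDomain NumberField Polynomial Matrix

namespace Pool.Agent.Helper80.SG

open Pool.Agent.Helper80.UC Pool.Agent.Helper80.QP

variable {K : Type} [Field K] [NumberField K]

/-- fibres of the triangular maps, preperiodic points -/
theorem tri_fibre_pre (K : Type) [Field K] [NumberField K] {d : ℕ} (hd : 5 ≤ d) :
    ∃ (B : ℕ) (E : Set K), E.Finite ∧ ∀ c ∉ E, ∀ (p : K[X]) (x : K), Pre (fun z => z ^ d + c) x →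
      {y : K | Pre (sk (fun z => z ^ d + c) (fun _ z => z) d (fun z => p.eval z)) (x, y)}.encard
        ≤ B := by
  classical
  obtain ⟨B1, hB1⟩ := UB1 K hd
  obtain ⟨E, hE, H⟩ := exc_struct K hd
  have hfin1 : ∀ c : K, {x : K | Pre (fun z => z ^ d + c) x}.Finite := fun c =>
    Set.finite_of_encard_le_coe (hB1 c)
  let E1 : K → Finset K := fun c => (hfin1 c).toFinset
  have hE1 : ∀ c x, x ∈ E1 c ↔ Pre (fun z => z ^ d + c) x := by
    intro c x
    simp [E1]
  have hE1c : ∀ c, (E1 c).card ≤ B1 := by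
    intro c
    have h1 := hB1 c
    rw [(hfin1 c).encard_eq_coe_toFinset_card] at h1
    exact_mod_cast h1
  refine ⟨B1 * d, E, hE, fun c hc p x hx => ?_⟩
  rcases H c hc with h | ⟨a, ha, hset⟩
  · have : x ∈ {x : K | Pre (fun z => z ^ d + c) x} := hx
    rw [h] at this
    exact absurd this (Set.notMem_empty _)
  have hxa : x ^ d = a ^ d := by
    have : x ∈ {x : K | Pre (fun z => z ^ d + c) x} := hx
    rw [hset] at this
    exact this
  set G : K × K → K × K := sk (fun z => z ^ d + c) (fun _ z => z) d (fun z => p.eval z) with hG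
  have hGa : ∀ y, G (a, y) = (a, y ^ d + p.eval a) := by
    intro y
    simp only [hG, sk, ha]
  have hGx : ∀ y, G (x, y) = (a, y ^ d + p.eval x) := by
    intro y
    simp only [hG, sk, hxa, ha]
  have hit : ∀ (n : ℕ) (y : K), G^[n] (a, y) = (a, (fun z => z ^ d + p.eval a)^[n] y) := by
    intro n
    induction n with
    | zero => intro y; rfl
    | succ n ih =>
      intro y
      rw [Function.iterate_succ_apply, Function.iterate_succ_apply, hGa, ih]
  have hsub : {y : K | Pre G (x, y)} ⊆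
      (((E1 (p.eval a)).biUnion fun z => nthRootsFinset d (z - p.eval x) : Finset K) : Set K) := by
    intro y hy
    have h1 : Pre G (a, y ^ d + p.eval x) := by
      rw [← hGx]; exact Pre.map hy
    obtain ⟨i, j, hij, he⟩ := h1
    rw [hit, hit] at he
    have h2 : Pre (fun z => z ^ d + p.eval a) (y ^ d + p.eval x) :=
      ⟨i, j, hij, (Prod.ext_iff.mp he).2⟩
    rw [Finset.mem_coe, Finset.mem_biUnion]
    refine ⟨_, (hE1 _ _).mpr h2, ?_⟩
    rw [Polynomial.mem_nthRootsFinset (by omega)]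
    ring
  refine (Set.encard_le_encard hsub).trans ?_
  rw [Set.encard_coe_eq_coe_finsetCard]
  have h3 : ((E1 (p.eval a)).biUnion fun z => nthRootsFinset d (z - p.eval x)).card ≤
      (E1 (p.eval a)).card * d := by
    refine Finset.card_biUnion_le_card_mul _ _ _ fun z _ => ?_
    rw [nthRootsFinset_def]
    exact (Multiset.toFinset_card_le _).trans (card_nthRoots _ _)
  exact_mod_cast h3.trans (Nat.mul_le_mul_right _ (hE1c _))

/-- **Uniform bound for the preperiodic points of the triangular maps.** -/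
theorem tri_pre (K : Type) [Field K] [NumberField K] (M : ℕ)
    {d : ℕ} (hd : 5 ≤ d) : ∃ (C : ℕ) (E : Set K), E.Finite ∧ ∀ c ∉ E, ∀ (p : Fin M → K[X]),
      (∀ i, (p i).natDegree ≤ d) →
      ∀ T : Finset (Fin (M + 2) → K), (∀ x ∈ T, x ≠ 0) →
      (∀ x ∈ T, ∀ y ∈ T, ∀ a : K, x = a • y → x = y) →
      (∀ x ∈ T, ∃ m n : ℕ, m < n ∧ ∃ a : K, (triMap d c p)^[n] x = a • (triMap d c p)^[m] x) →
      T.card ≤ C := by
  classical
  obtain ⟨B1, hB1⟩ := UB1 K hd
  obtain ⟨B2, E, hE, hB2⟩ := tri_fibre_pre K hd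
  have hfin1 : ∀ c : K, {x : K | Pre (fun z => z ^ d + c) x}.Finite := fun c =>
    Set.finite_of_encard_le_coe (hB1 c)
  let E1 : K → Finset K := fun c => (hfin1 c).toFinset
  have hE1 : ∀ c x, x ∈ E1 c ↔ Pre (fun z => z ^ d + c) x := by
    intro c x
    simp [E1]
  have hE1c : ∀ c, (E1 c).card ≤ B1 := by
    intro c
    have h1 := hB1 c
    rw [(hfin1 c).encard_eq_coe_toFinset_card] at h1
    exact_mod_cast h1
  refine ⟨B1 * B2 ^ M + B1 ^ M + B1 ^ (M + 2), E, hE, ?_⟩
  intro c hc p hpd T hT0 hTp hT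
  have hd0 : d ≠ 0 := by omega
  have hfin2 : ∀ (i : Fin M) (x : K), {y : K | Pre (fun z => z ^ d + c) x ∧
      Pre (sk (fun z => z ^ d + c) (fun _ z => z) d (fun z => (p i).eval z)) (x, y)}.Finite := by
    intro i x
    by_cases hx : Pre (fun z => z ^ d + c) x
    · exact (Set.finite_of_encard_le_coe (hB2 c hc (p i) x hx)).subset fun y hy => hy.2
    · convert Set.finite_empty
      ext y
      simp [hx]
  let E2 : Fin M → K → Finset K := fun i x => (hfin2 i x).toFinset
  have hE2c : ∀ i x, (E2 i x).card ≤ B2 := by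
    intro i x
    by_cases hx : Pre (fun z => z ^ d + c) x
    · have h1 : {y : K | Pre (fun z => z ^ d + c) x ∧
          Pre (sk (fun z => z ^ d + c) (fun _ z => z) d (fun z => (p i).eval z)) (x, y)}.encard
          ≤ B2 := (Set.encard_le_encard fun y hy => hy.2).trans (hB2 c hc (p i) x hx)
      rw [(hfin2 i x).encard_eq_coe_toFinset_card] at h1
      exact_mod_cast h1
    · have : E2 i x = ∅ := by
        ext y
        simp [E2, hx]
      rw [this]; simp
  -- normal forms
  have hnorm : ∀ x ∈ T, ∃ (b : K) (y : Fin (M + 2) → K), b ≠ 0 ∧ x = b • y ∧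
      ((y 0 = 1 ∧ y 1 ∈ E1 c ∧ ∀ i : Fin M, y i.succ.succ ∈ E2 i (y 1)) ∨
        (y 0 = 0 ∧ y 1 = 1 ∧ ∀ i : Fin M, y i.succ.succ ∈ E1 ((p i).coeff d)) ∨
        ∀ i, y i ∈ E1 0) := by
    intro x hx
    obtain ⟨m, n, hmn, a, h⟩ := hT x hx
    obtain ⟨b, y, hb, hxy, hy, hy0⟩ := tri_norm hd0 c p x (hT0 x hx) m n a h
    refine ⟨b, y, hb, hxy, ?_⟩
    rcases hy0 with hy0 | ⟨hy0, hy1⟩ | ⟨hy0, hy1⟩
    · left
      obtain ⟨-, h1, h2⟩ := triMap_iter_one (d := d) c p hpd n y hy0
      obtain ⟨-, h1', h2'⟩ := triMap_iter_one (d := d) c p hpd m y hy0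
      rw [hy] at h1 h2
      have hP1 : Pre (fun z => z ^ d + c) (y 1) := ⟨m, n, hmn, h1'.symm.trans h1⟩
      refine ⟨hy0, (hE1 _ _).mpr hP1, fun i => ?_⟩
      have h3 : y i.succ.succ ∈ {y' : K | Pre (fun z => z ^ d + c) (y 1) ∧
          Pre (sk (fun z => z ^ d + c) (fun _ z => z) d (fun z => (p i).eval z)) (y 1, y')} := by
        refine ⟨hP1, m, n, hmn, ?_⟩
        rw [← h2 i, ← h2' i, ← h1, ← h1']
      exact (hfin2 i (y 1)).mem_toFinset.mpr h3
    · right; left
      refine ⟨hy0, hy1, fun i => ?_⟩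
      rw [hE1]
      refine ⟨m, n, hmn, ?_⟩
      have h1 := (triMap_iter_inf hd0 c p n y hy0 hy1).2.2 i
      have h1' := (triMap_iter_inf hd0 c p m y hy0 hy1).2.2 i
      rw [hy] at h1
      exact h1'.symm.trans h1
    · right; right
      intro i
      rw [hE1]
      refine ⟨m, n, hmn, ?_⟩
      have h1 := (triMap_iter_zero hd0 c p n y hy0 hy1).2.2 i
      have h1' := (triMap_iter_zero hd0 c p m y hy0 hy1).2.2 i
      rw [hy] at h1
      exact h1'.symm.trans h1
  choose! b y hb hy hper using hnorm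
  have hyinj : Set.InjOn y T := by
    intro x hx x' hx' h
    refine hTp x hx x' hx' (b x * (b x')⁻¹) ?_
    have h2 : (b x')⁻¹ • x' = y x' := by
      have h3 := congrArg (fun z => (b x')⁻¹ • z) (hy x' hx')
      simp only [smul_smul, inv_mul_cancel₀ (hb x' hx'), one_smul] at h3
      exact h3
    calc x = b x • y x := hy x hx
      _ = b x • y x' := by rw [h]
      _ = (b x * (b x')⁻¹) • x' := by rw [← h2, smul_smul]
  let F1 : K → Fin (M + 2) → Finset K := fun x =>
    Fin.cons {1} (Fin.cons {x} (fun i => E2 i x))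
  let F2 : Fin (M + 2) → Finset K := fun _ => E1 0
  let F3 : Fin (M + 2) → Finset K := Fin.cons {0} (Fin.cons {1} (fun i => E1 ((p i).coeff d)))
  have hsub : T.image y ⊆ ((E1 c).biUnion (fun x => Fintype.piFinset (F1 x)) ∪
      Fintype.piFinset F3) ∪ Fintype.piFinset F2 := by
    intro z hz
    obtain ⟨x, hx, rfl⟩ := Finset.mem_image.mp hz
    rw [Finset.mem_union, Finset.mem_union, Finset.mem_biUnion, Fintype.mem_piFinset,
      Fintype.mem_piFinset]
    rcases hper x hx with ⟨h0, h1, h2⟩ | ⟨h0, h1, h2⟩ | h0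
    · left; left
      refine ⟨y x 1, h1, ?_⟩
      rw [Fintype.mem_piFinset]
      intro i
      refine Fin.cases ?_ (fun i => ?_) i
      · simpa [F1] using h0
      · refine Fin.cases ?_ (fun i => ?_) i
        · show y x 1 ∈ ({y x 1} : Finset K)
          simp
        · exact h2 i
    · left; right
      intro i
      refine Fin.cases ?_ (fun i => ?_) i
      · simpa [F3] using h0
      · refine Fin.cases ?_ (fun i => ?_) i
        · show y x 1 ∈ ({1} : Finset K)
          simpa using h1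
        · exact h2 i
    · right
      exact h0
  have hcard1 : ∀ x ∈ E1 c, (Fintype.piFinset (F1 x)).card ≤ B2 ^ M := by
    intro x _
    rw [Fintype.card_piFinset, Fin.prod_univ_succ, Fin.prod_univ_succ]
    simp only [F1, Fin.cons_zero, Fin.cons_succ, Finset.card_singleton, one_mul]
    calc ∏ i, (E2 i x).card ≤ ∏ _i : Fin M, B2 :=
          Finset.prod_le_prod' fun i _ => hE2c i x
      _ = B2 ^ M := by simp
  have hcard2 : (Fintype.piFinset F2).card ≤ B1 ^ (M + 2) := by
    rw [Fintype.card_piFinset]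
    calc ∏ i, (F2 i).card ≤ ∏ _i : Fin (M + 2), B1 := Finset.prod_le_prod' fun i _ => hE1c 0
      _ = B1 ^ (M + 2) := by simp
  have hcard3 : (Fintype.piFinset F3).card ≤ B1 ^ M := by
    rw [Fintype.card_piFinset, Fin.prod_univ_succ, Fin.prod_univ_succ]
    simp only [F3, Fin.cons_zero, Fin.cons_succ, Finset.card_singleton, one_mul]
    calc ∏ i, (E1 ((p i).coeff d)).card ≤ ∏ _i : Fin M, B1 :=
          Finset.prod_le_prod' fun i _ => hE1c _
      _ = B1 ^ M := by simp
  calc T.card = (T.image y).card := (Finset.card_image_of_injOn hyinj).symm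
    _ ≤ _ := Finset.card_le_card hsub
    _ ≤ ((E1 c).biUnion (fun x => Fintype.piFinset (F1 x)) ∪ Fintype.piFinset F3).card +
        (Fintype.piFinset F2).card := Finset.card_union_le _ _
    _ ≤ (((E1 c).biUnion (fun x => Fintype.piFinset (F1 x))).card + (Fintype.piFinset F3).card) +
        (Fintype.piFinset F2).card := add_le_add (Finset.card_union_le _ _) le_rfl
    _ ≤ B1 * B2 ^ M + B1 ^ M + B1 ^ (M + 2) := by
        refine add_le_add (add_le_add ?_ hcard3) hcard2
        refine (Finset.card_biUnion_le_card_mul _ _ _ hcard1).trans ?_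
        exact Nat.mul_le_mul_right _ (hE1c c)

end Pool.Agent.Helper80.SG
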