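import Mathlib
import Pool.Agent.Helper80.SG.TriPre

set_option autoImplicit false

open IsDedekindDomain NumberField Polynomial

namespace Pool.Agent.Helper80.SG

open Pool.Agent.Helper80.UC Pool.Agent.Helper80.QP

section abs

variable {K : Type} [Field K] [NumberField K] {X : Type} {v : Pl K} {φ : X → X} {d : ℕ}
  {b : X → K} {M : Finset K}

/-- monotonicity of the valuations of the differences until merging -/
lemma sk_mono_merge (HM : GM v M d) (hd : 2 ≤ d)
    (hb : ∀ x, b x ∈ A v) {x : X} {y y' : K} (hy : Pre (sk φ (fun _ z => z) d b) (x, y))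
    (hy' : Pre (sk φ (fun _ z => z) d b) (x, y')) (k : ℕ) : ∀ m,
    ((sk φ (fun _ z => z) d b)^[m + k] (x, y)).2 ≠ ((sk φ (fun _ z => z) d b)^[m + k] (x, y')).2 →
    o v (((sk φ (fun _ z => z) d b)^[m] (x, y)).2 - ((sk φ (fun _ z => z) d b)^[m] (x, y')).2) ≤
      o v (((sk φ (fun _ z => z) d b)^[m + k] (x, y)).2 -
        ((sk φ (fun _ z => z) d b)^[m + k] (x, y')).2) := by
  induction k with
  | zero => intro m _; simp
  | succ k ih =>
    intro m hne'
    have hbase := sk_base φ (fun _ z => z) d b x y y' (m + k)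
    have hne : ((sk φ (fun _ z => z) d b)^[m + k] (x, y)).2 ≠
        ((sk φ (fun _ z => z) d b)^[m + k] (x, y')).2 := by
      intro h0
      apply hne'
      have h1 : (sk φ (fun _ z => z) d b)^[m + k] (x, y) =
          (sk φ (fun _ z => z) d b)^[m + k] (x, y') := Prod.ext hbase h0
      rw [← add_assoc, Function.iterate_succ_apply', Function.iterate_succ_apply', h1]
    refine (ih m hne).trans ?_
    rw [← add_assoc, Function.iterate_succ_apply', Function.iterate_succ_apply'] at hne' ⊢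
    have hA := sk_good_int (fun _ => GH_id v) le_rfl hd hb (hy.iter (m + k))
    have hA' := sk_good_int (fun _ => GH_id v) le_rfl hd hb (hy'.iter (m + k))
    set z := (sk φ (fun _ z => z) d b)^[m + k] (x, y) with hz
    set z' := (sk φ (fun _ z => z) d b)^[m + k] (x, y') with hz'
    have e1 : z = (z.1, z.2) := rfl
    have e2 : z' = (z.1, z'.2) := by rw [hbase]
    rw [e1, e2] at hne' ⊢
    exact (sk_good_step (fun _ => GH_id v) HM hA hA' hne').2.1

/-- the local condition at a good place for merging chains -/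
lemma merge_good (HM : GM v M d) (hd : 2 ≤ d)
    (hb : ∀ x, b x ∈ A v) {x : X} {u w : K} (hu : Pre (sk φ (fun _ z => z) d b) (x, u))
    (hw : Pre (sk φ (fun _ z => z) d b) (x, w)) {n : ℕ} {ζ : K} (hζ : ζ ∈ M) (hζ1 : ζ ≠ 1)
    (hw0 : w ≠ 0)
    (e1 : (sk φ (fun _ z => z) d b)^[n + 1] (x, w) = (x, w))
    (e2 : (sk φ (fun _ z => z) d b)^[n + 1] (x, u) = (x, ζ * w)) (hne : u ^ d ≠ w ^ d) :
    ∃ k : ℤ, ∀ η ∈ M, o v (u / w - η) = k := by
  have huA : u ∈ A v := sk_good_int (z := (x, u)) (fun _ => GH_id v) le_rfl hd hb hu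
  have hwA : w ∈ A v := sk_good_int (z := (x, w)) (fun _ => GH_id v) le_rfl hd hb hw
  have hfne : (sk φ (fun _ z => z) d b (x, u)).2 ≠ (sk φ (fun _ z => z) d b (x, w)).2 := by
    intro h0
    apply hne
    simpa [sk] using h0
  have hdiff : ζ * w - w ≠ 0 := by
    rw [show ζ * w - w = (ζ - 1) * w by ring]
    exact mul_ne_zero (sub_ne_zero.mpr hζ1) hw0
  have hod : o v (ζ * w - w) = o v w := by
    rw [show ζ * w - w = (ζ - 1) * w by ring, o_mul v (sub_ne_zero.mpr hζ1) hw0,
      HM.diff ζ hζ 1 HM.one hζ1, zero_add]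
  have hmono := sk_mono_merge HM hd hb hu hw n 1 (by
    rw [add_comm 1 n, e1, e2]
    exact sub_ne_zero.mp hdiff)
  rw [add_comm 1 n, e1, e2, Function.iterate_one] at hmono
  simp only [hod] at hmono
  -- the product over all roots of unity
  have hff : (sk φ (fun _ z => z) d b (x, u)).2 - (sk φ (fun _ z => z) d b (x, w)).2 =
      ∏ η ∈ M, (u - η * w) := by
    rw [← HM.fac]; simp [sk]
  have hprod : ∏ η ∈ M, (u - η * w) ≠ 0 := by
    rw [← hff]; exact sub_ne_zero.mpr hfne
  have hall : ∀ η ∈ M, u - η * w ≠ 0 := Finset.prod_ne_zero_iff.mp hprod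
  have hnn : ∀ η ∈ M, 0 ≤ o v (u - η * w) := by
    intro η hη
    apply o_nonneg
    exact sub_mem huA (mul_mem (mem_A_of v (by rw [HM.unit η hη])) hwA)
  rw [hff, o_prod v M _ hall] at hmono
  have hle : ∀ η ∈ M, o v (u - η * w) ≤ o v w := fun η hη =>
    (Finset.single_le_sum (f := fun η => o v (u - η * w)) (fun i hi => hnn i hi) hη).trans hmono
  have hid : ∀ η, u / w - η = (u - η * w) / w := by
    intro η; field_simp
  have hle' : ∀ η ∈ M, o v (u / w - η) ≤ 0 := by
    intro η hη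
    rw [hid, o_div v (hall η hη) hw0]
    have := hle η hη
    omega
  by_cases ht : u / w ∈ A v
  · refine ⟨0, fun η hη => le_antisymm (hle' η hη) ?_⟩
    apply o_nonneg
    exact sub_mem ht (mem_A_of v (by rw [HM.unit η hη]))
  · obtain ⟨ht0, htneg⟩ := not_mem_A v ht
    refine ⟨o v (u / w), fun η hη => ?_⟩
    have h1 := o_add_lt' v ht0 (y := -η) (Or.inr (by rw [o_neg, HM.unit η hη]; exact htneg))
    rw [← sub_eq_add_neg] at h1
    exact h1.2

end abs

/-- **Finiteness of the ratios for merging chains, abstract form.** -/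
theorem merge_ratio {K : Type} [Field K] [NumberField K] {d : ℕ} {M : Finset K} {S : Set (Pl K)}
    (H0 : GM0 M d) (hS : S.Finite) (HM : ∀ v ∉ S, GM v M d) (hd : 5 ≤ d) :
    ∃ F : Set K, F.Finite ∧ ∀ (X : Type) (φ : X → X) (b : X → K), (∀ v ∉ S, SD v b) →
      ∀ (x : X) (u w ζ : K) (n : ℕ), Pre (sk φ (fun _ z => z) d b) (x, u) → w ≠ 0 → ζ ∈ M → ζ ≠ 1 →
      (sk φ (fun _ z => z) d b)^[n + 1] (x, w) = (x, w) →
      (sk φ (fun _ z => z) d b)^[n + 1] (x, u) = (x, ζ * w) → u ^ d ≠ w ^ d → u / w ∈ F := by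
  classical
  have hmZ : ((d - 1 : ℕ) : ℤ) = d * (1 : ℕ) - 1 := by
    push_cast [show 1 ≤ d by omega]; ring
  refine ⟨_, abs_fin (m := d - 1) H0 hS (by omega) (by omega) (Or.inl hd), ?_⟩
  intro X φ b Hb x u w ζ n hu hw0 hζ hζ1 e1 e2 hne
  have hw : Pre (sk φ (fun _ z => z) d b) (x, w) := ⟨0, n + 1, by omega, by rw [e1]; rfl⟩
  have hpow : ∀ η ∈ M, u ≠ η * w := by
    intro η hη h0
    apply hne
    have := H0.fac u w
    rw [Finset.prod_eq_zero (f := fun η => u - η * w) hη (sub_eq_zero.mpr h0)] at this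
    exact sub_eq_zero.mp this
  have hid : ∀ η, u / w - η = (u - η * w) / w := by
    intro η; field_simp
  refine ⟨fun η hη _ h0 => hpow η hη (by rw [← h0, div_mul_cancel₀ _ hw0]), fun v hv => ?_⟩
  rcases Hb v hv with hb | ⟨γ, hγ, hb⟩
  · obtain ⟨k, hk⟩ := merge_good (HM v hv) (by omega) hb hu hw hζ hζ1 hw0 e1 e2 hne
    refine ⟨k, fun η hη _ => ?_⟩
    rw [hk η hη, sub_self]
    exact dvd_zero _
  · refine ⟨0, fun η hη hη1 => ?_⟩
    have hn0 : u - η * w ≠ 0 := sub_ne_zero.mpr (hpow η hη)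
    rw [hid, o_div v hn0 hw0, sub_zero, hmZ]
    exact sk_bad_eta (h := fun _ z => z) (fun _ => GH_id v) (HM v hv) le_rfl (by omega) hγ hb hu hw
      hη (hpow η hη)

/-- **Finiteness of the ratios for merging chains over `K`.** -/
theorem merge_K (K : Type) [Field K] [NumberField K] (S : Set (Pl K)) (hS : S.Finite) {d : ℕ}
    (hd : 5 ≤ d) :
    ∃ F : Set K, F.Finite ∧ ∀ (X : Type) (φ : X → X) (b : X → K), (∀ v ∉ S, SD v b) →
      ∀ (x : X) (u w z : K) (n : ℕ), Pre (sk φ (fun _ z => z) d b) (x, u) → w ≠ 0 → z ^ d = w ^ d →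
      z ≠ w → (sk φ (fun _ z => z) d b)^[n + 1] (x, w) = (x, w) →
      (sk φ (fun _ z => z) d b)^[n + 1] (x, u) = (x, z) → u ^ d ≠ w ^ d → u / w ∈ F := by
  have : NeZero d := ⟨by omega⟩
  let L := CyclotomicField d K
  have hζ : IsPrimitiveRoot (IsCyclotomicExtension.zeta d K L) d :=
    IsCyclotomicExtension.zeta_spec d K L
  obtain ⟨S1, hS1, HM⟩ := GM_of (by omega) hζ
  have H0 := GM0_of (by omega) hζ
  obtain ⟨T, hT, HT⟩ := S_up (algebraMap K L) S hS
  obtain ⟨F, hF, H⟩ := merge_ratio (S := S1 ∪ T) H0 (hS1.union hT)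
    (fun v hv => HM v (fun h => hv (Or.inl h))) hd
  refine ⟨(algebraMap K L) ⁻¹' F, hF.preimage (algebraMap K L).injective.injOn, ?_⟩
  intro X φ b Hb x u w z n hu hw0 hz hzw e1 e2 hne
  let g : X × K → X × L := fun z => (z.1, algebraMap K L z.2)
  have hsc : ∀ z : X × K, g (sk φ (fun _ z => z) d b z) =
      sk φ (fun _ z => z) d (fun x => algebraMap K L (b x)) (g z) := by
    rintro ⟨x, z⟩
    simp only [g, sk, map_add, map_pow]
  have hscn : ∀ (k : ℕ) (z : X × K), g ((sk φ (fun _ z => z) d b)^[k] z) =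
      (sk φ (fun _ z => z) d (fun x => algebraMap K L (b x)))^[k] (g z) := by
    intro k
    induction k with
    | zero => intro z; rfl
    | succ k ih => intro z; rw [Function.iterate_succ_apply, Function.iterate_succ_apply, ih, hsc]
  have hb' : ∀ w ∉ S1 ∪ T, SD w (fun x => algebraMap K L (b x)) := by
    intro w hw
    simp only [Set.mem_union, not_or] at hw
    obtain ⟨v, hv, r, hr, hrw⟩ := HT w hw.2
    exact SD_up (algebraMap K L) hr hrw (Hb v hv)
  have hinj := (algebraMap K L).injective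
  have hw0' : algebraMap K L w ≠ 0 := (_root_.map_ne_zero _).mpr hw0
  have hη : algebraMap K L z / algebraMap K L w ∈ nthRootsFinset d (1 : L) := by
    apply H0.mem
    rw [div_pow, ← map_pow, ← map_pow, hz, div_self]
    rw [map_pow]
    exact pow_ne_zero _ hw0'
  have hη1 : algebraMap K L z / algebraMap K L w ≠ 1 := by
    intro h
    rw [div_eq_one_iff_eq hw0'] at h
    exact hzw (hinj h)
  have h1 := H X φ (fun x => algebraMap K L (b x)) hb' x (algebraMap K L u) (algebraMap K L w)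
    (algebraMap K L z / algebraMap K L w) n (hu.push g hsc) hw0' hη hη1
    (by
      have := hscn (n + 1) (x, w)
      rw [e1] at this
      exact this.symm)
    (by
      have := hscn (n + 1) (x, u)
      rw [e2] at this
      rw [div_mul_cancel₀ _ hw0']
      exact this.symm)
    (by
      rw [← map_pow, ← map_pow]
      exact fun h => hne (hinj h))
  rw [← map_div₀] at h1
  exact h1

end Pool.Agent.Helper80.SG
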