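import Mathlib
import Pool.Agent.Helper80.SG.FibPre

set_option autoImplicit false

open IsDedekindDomain NumberField Polynomial

namespace Pool.Agent.Helper80.SG

open Pool.Agent.Helper80.UC Pool.Agent.Helper80.QP

/-- periodic points of an orbit in a finite set are fixed by a factorial iterate -/
lemma fix_fact {α : Type*} {g : α → α} {x : α} (hx : Per g x) (A : Finset α)
    (hA : ∀ k, g^[k] x ∈ A) {B : ℕ} (hB : A.card ≤ B) : g^[B.factorial] x = x := by
  classical
  obtain ⟨n, hn, h⟩ := hx
  have hper : Function.IsPeriodicPt g n x := h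
  have hpos : 0 < Function.minimalPeriod g x := hper.minimalPeriod_pos hn
  have hle : Function.minimalPeriod g x ≤ A.card := by
    have h1 : ((Finset.range (Function.minimalPeriod g x)).image (fun k => g^[k] x)).card =
        Function.minimalPeriod g x := by
      rw [Finset.card_image_of_injOn, Finset.card_range]
      intro a ha b hb hab
      exact Function.iterate_injOn_Iio_minimalPeriod (by simpa using ha) (by simpa using hb) hab
    rw [← h1]
    apply Finset.card_le_card
    intro y hy
    obtain ⟨k, -, rfl⟩ := Finset.mem_image.mp hy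
    exact hA k
  have hdvd : Function.minimalPeriod g x ∣ B.factorial := Nat.dvd_factorial hpos (hle.trans hB)
  exact (Function.isPeriodicPt_minimalPeriod g x).trans_dvd hdvd

/-- pigeonhole -/
lemma pigeon {α : Type*} (g : α → α) (x : α) (A : Finset α) (hA : ∀ k, g^[k] x ∈ A) {B : ℕ}
    (hB : A.card ≤ B) :
    ∃ i ≤ B, ∃ p, 1 ≤ p ∧ p ≤ B ∧ g^[p] (g^[i] x) = g^[i] x := by
  classical
  obtain ⟨i, hi, j, hj, hne, heq⟩ := Finset.exists_ne_map_eq_of_card_lt_of_maps_to
    (s := Finset.range (B + 1)) (t := A) (by rw [Finset.card_range]; omega)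
    (f := fun k => g^[k] x) (fun k _ => hA k)
  simp only [Finset.mem_range] at hi hj
  rcases lt_or_gt_of_ne hne with h | h
  · refine ⟨i, by omega, j - i, by omega, by omega, ?_⟩
    rw [← Function.iterate_add_apply, Nat.sub_add_cancel h.le, heq]
  · refine ⟨j, by omega, i - j, by omega, by omega, ?_⟩
    rw [← Function.iterate_add_apply, Nat.sub_add_cancel h.le, heq]

section cnt

variable {K : Type} [Field K] {X : Type}

lemma sk_fst (φ : X → X) (h : X → K → K) (d : ℕ) (b : X → K) (n : ℕ) (z : X × K) :
    ((sk φ h d b)^[n] z).1 = φ^[n] z.1 := by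
  induction n generalizing z with
  | zero => rfl
  | succ n ih => rw [Function.iterate_succ_apply, Function.iterate_succ_apply, ih]; rfl

/-- the number of preimages in a fibre -/
lemma preim_card (φ : X → X) (b : X → K) {d : ℕ} (hd : 0 < d) (i : ℕ) : ∀ (x : X) (Q : Finset K),
    ∃ Q' : Finset K, Q'.card ≤ d ^ i * Q.card ∧
      ∀ y, ((sk φ (fun _ z => z) d b)^[i] (x, y)).2 ∈ Q → y ∈ Q' := by
  classical
  induction i with
  | zero => intro x Q; exact ⟨Q, by simp, fun y hy => hy⟩
  | succ i ih =>
    intro x Q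
    obtain ⟨Q1, hQ1, h1⟩ := ih (φ x) Q
    refine ⟨Q1.biUnion fun z => nthRootsFinset d (z - b x), ?_, fun y hy => ?_⟩
    · have h2 : (Q1.biUnion fun z => nthRootsFinset d (z - b x)).card ≤ Q1.card * d := by
        refine Finset.card_biUnion_le_card_mul _ _ _ fun z _ => ?_
        rw [nthRootsFinset_def]
        exact (Multiset.toFinset_card_le _).trans (card_nthRoots _ _)
      calc _ ≤ Q1.card * d := h2
        _ ≤ d ^ i * Q.card * d := Nat.mul_le_mul_right _ hQ1
        _ = d ^ (i + 1) * Q.card := by ring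
    · rw [Function.iterate_succ_apply] at hy
      have h2 := h1 (y ^ d + b x) hy
      rw [Finset.mem_biUnion]
      refine ⟨_, h2, ?_⟩
      rw [Polynomial.mem_nthRootsFinset hd]
      ring

end cnt

/-- the number of periodic points in a fibre -/
theorem fibreI (K : Type) [Field K] [NumberField K] (S : Set (Pl K)) (hS : S.Finite) {d : ℕ}
    (hd : 5 ≤ d) :
    ∃ B : ℕ, ∀ (X : Type) (φ : X → X) (b : X → K), (∀ v ∉ S, SD v b) → ∀ (x : X),
      {y : K | Per (sk φ (fun _ z => z) d b) (x, y)}.encard ≤ B := by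
  obtain ⟨B, hB⟩ := fibreS K S hS (d := d) (e := 1) le_rfl (by omega) (by omega)
  refine ⟨B, fun X φ b hb x => ?_⟩
  have h1 := hB X φ (fun _ => Polynomial.X) b (fun _ => SP_X S) hb x
  have h2 : (fun (x : X) (z : K) => (Polynomial.X : K[X]).eval z) = fun _ z => z := by
    funext x z
    rw [eval_X]
  rw [h2] at h1
  exact h1

/-- **Preperiodic points in the fibres over a periodic point of the base.** -/
theorem fibre_pre (K : Type) [Field K] [NumberField K] (S : Set (Pl K)) (hS : S.Finite) {d : ℕ}
    (hd : 5 ≤ d) (r : ℕ) :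
    ∃ B : ℕ, ∀ (X : Type) (φ : X → X) (b : X → K), (∀ v ∉ S, SD v b) → ∀ (x : X) (p : ℕ), 1 ≤ p →
      p ≤ r → φ^[p] x = x →
      {y : K | Pre (sk φ (fun _ z => z) d b) (x, y)}.encard ≤ B := by
  classical
  obtain ⟨B1, hB1⟩ := fibreI K S hS hd
  obtain ⟨F, hF, H⟩ := merge_K K S hS hd
  set R : ℕ := r.factorial * B1.factorial with hR
  have hR0 : 0 < R := Nat.mul_pos (Nat.factorial_pos _) (Nat.factorial_pos _)
  set q : ℕ := B1 + F.ncard * B1 with hq
  refine ⟨∑ i ∈ Finset.range (R + 1), d ^ i * q, fun X φ b Hb x p hp1 hpr hpx => ?_⟩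
  set G : X × K → X × K := sk φ (fun _ z => z) d b with hG
  have hfst : ∀ (n : ℕ) (z : X × K), (G^[n] z).1 = φ^[n] z.1 := fun n z => sk_fst _ _ _ _ n z
  -- periodic points in the fibres
  have hPfin : ∀ x' : X, {y : K | Per G (x', y)}.Finite := fun x' =>
    Set.finite_of_encard_le_coe (hB1 X φ b Hb x')
  let P : X → Finset K := fun x' => (hPfin x').toFinset
  have hPmem : ∀ x' y, y ∈ P x' ↔ Per G (x', y) := by
    intro x' y
    simp [P]
  have hPc : ∀ x', (P x').card ≤ B1 := by
    intro x'
    have h1 := hB1 X φ b Hb x'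
    rw [(hPfin x').encard_eq_coe_toFinset_card] at h1
    exact_mod_cast h1
  -- points of the cycle
  have hcyc : ∀ i, φ^[p] (φ^[i] x) = φ^[i] x := by
    intro i
    rw [← Function.iterate_add_apply, Nat.add_comm, Function.iterate_add_apply, hpx]
  have hpR : p ∣ R := (Nat.dvd_factorial (by omega) hpr).trans (Dvd.intro _ rfl)
  have hRcyc : ∀ x', φ^[p] x' = x' → φ^[R] x' = x' := by
    intro x' hx'
    obtain ⟨k, hk⟩ := hpR
    rw [hk, Function.iterate_mul]
    exact Function.iterate_fixed hx' k
  -- Claim A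
  have hA : ∀ (x' : X) (w : K), φ^[p] x' = x' → Per G (x', w) → G^[R] (x', w) = (x', w) := by
    intro x' w hx' hw
    obtain ⟨k, hk⟩ := Nat.dvd_factorial (show 0 < p by omega) hpr
    have hRk : R = p * B1.factorial * k := by rw [hR, hk]; ring
    have hPer : Per (G^[p]) (x', w) := by
      obtain ⟨n, hn, h⟩ := hw
      refine ⟨n, hn, ?_⟩
      rw [← Function.iterate_mul, Nat.mul_comm, Function.iterate_mul]
      exact Function.iterate_fixed h p
    have hmem : ∀ j, (G^[p])^[j] (x', w) ∈ (P x').image (fun y => (x', y)) := by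
      intro j
      rw [Finset.mem_image]
      have h1 : ((G^[p])^[j] (x', w)).1 = x' := by
        rw [← Function.iterate_mul, hfst, Function.iterate_mul]
        exact Function.iterate_fixed hx' j
      have h2 : Per G ((G^[p])^[j] (x', w)) := by
        rw [← Function.iterate_mul]
        exact hw.iter _
      refine ⟨((G^[p])^[j] (x', w)).2, ?_, Prod.ext h1.symm rfl⟩
      rw [hPmem]
      have h3 : (x', ((G^[p])^[j] (x', w)).2) = (G^[p])^[j] (x', w) := Prod.ext h1.symm rfl
      rw [h3]
      exact h2
    have h4 := fix_fact hPer _ hmem (B := B1) (Finset.card_image_le.trans (hPc x'))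
    rw [hRk, Function.iterate_mul, Function.iterate_mul]
    exact Function.iterate_fixed h4 k
  -- the sets Q
  let Q : X → Finset K := fun x' => P x' ∪ hF.toFinset.biUnion (fun t => (P x').image (fun w => t * w))
  have hQc : ∀ x', (Q x').card ≤ q := by
    intro x'
    refine (Finset.card_union_le _ _).trans ?_
    have h1 := Finset.card_biUnion_le_card_mul hF.toFinset
      (fun t => (P x').image (fun w => t * w)) B1 (fun t _ => Finset.card_image_le.trans (hPc x'))
    rw [← Set.ncard_eq_toFinset_card F hF] at h1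
    have := hPc x'
    omega
  -- Claim B
  have hB : ∀ y, Pre G (x, y) → ∃ i ≤ R, (G^[i] (x, y)).2 ∈ Q (φ^[i] x) := by
    intro y hy
    have hex : ∃ l, Per G (G^[l] (x, y)) := hy.ev
    set l := Nat.find hex with hl
    have hlP : Per G (G^[l] (x, y)) := Nat.find_spec hex
    have hlm : ∀ m < l, ¬ Per G (G^[m] (x, y)) := fun m hm => Nat.find_min hex hm
    by_cases hlR : l ≤ R
    · refine ⟨l, hlR, ?_⟩
      apply Finset.mem_union_left
      rw [hPmem]
      have h3 : (φ^[l] x, (G^[l] (x, y)).2) = G^[l] (x, y) := Prod.ext (hfst l (x, y)).symm rfl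
      rw [h3]
      exact hlP
    · push Not at hlR
      obtain ⟨i, j, hiR, hlj, hj1⟩ : ∃ i j, i < R ∧ l = (R * j + i) + 1 ∧ 1 ≤ j := by
        refine ⟨(l - 1) % R, (l - 1) / R, Nat.mod_lt _ hR0, ?_, ?_⟩
        · rw [Nat.div_add_mod]
          omega
        · rw [Nat.one_le_div_iff hR0]
          omega
      refine ⟨i, hiR.le, ?_⟩
      set x' := φ^[i] x with hx'
      have hx'c : φ^[p] x' = x' := hcyc i
      set u := (G^[i] (x, y)).2 with hu
      have hxu : G^[i] (x, y) = (x', u) := Prod.ext (hfst i (x, y)) rfl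
      have hpreu : Pre G (x', u) := by rw [← hxu]; exact hy.iter i
      set z := (G^[R * j] (x', u)).2 with hz
      have hxz : G^[R * j] (x', u) = (x', z) := by
        refine Prod.ext ?_ rfl
        rw [hfst, Function.iterate_mul]
        exact Function.iterate_fixed (hRcyc x' hx'c) j
      have hzl : (x', z) = G^[R * j + i] (x, y) := by
        rw [← hxz, ← hxu, ← Function.iterate_add_apply]
      have hznp : ¬ Per G (x', z) := by
        rw [hzl]
        exact hlm _ (by omega)
      have hzp : Per G (G (x', z)) := by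
        rw [hzl, ← Function.iterate_succ_apply' G]
        rw [hlj] at hlP
        exact hlP
      -- the periodic companion
      have hcyc1 : φ^[p] (φ x') = φ x' := by
        rw [← Function.iterate_succ_apply, Function.iterate_succ_apply', hx'c]
      have hG1 : G (x', z) = (φ x', (G (x', z)).2) := rfl
      have hfixz : G^[R] (G (x', z)) = G (x', z) := by
        rw [hG1] at hzp ⊢
        exact hA _ _ hcyc1 hzp
      set w := (G^[R - 1] (G (x', z))).2 with hw
      have hxw : G^[R - 1] (G (x', z)) = (x', w) := by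
        refine Prod.ext ?_ rfl
        rw [hfst]
        show φ^[R - 1] (φ x') = x'
        rw [← Function.iterate_succ_apply, show (R - 1).succ = R by omega]
        exact hRcyc x' hx'c
      have hperw : Per G (x', w) := by rw [← hxw]; exact hzp.iter _
      have hGw : G (x', w) = G (x', z) := by
        rw [← hxw, ← Function.iterate_succ_apply' G, show (R - 1).succ = R by omega, hfixz]
      have hpow : z ^ d = w ^ d := by
        have h1 := (Prod.ext_iff.mp hGw).2
        have h2 : w ^ d + b x' = z ^ d + b x' := h1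
        exact (add_right_cancel h2).symm
      have hzw : z ≠ w := by
        intro h
        apply hznp
        rw [h]
        exact hperw
      have hw0 : w ≠ 0 := by
        intro h
        apply hzw
        rw [h, zero_pow (by omega)] at hpow
        rw [h]
        exact pow_eq_zero_iff (by omega) |>.mp hpow
      have hfixw : G^[R * j] (x', w) = (x', w) := by
        rw [Function.iterate_mul]
        exact Function.iterate_fixed (hA x' w hx'c hperw) j
      have hne : u ^ d ≠ w ^ d := by
        intro h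
        have h1 : G (x', u) = G (x', w) := by
          refine Prod.ext rfl ?_
          show u ^ d + b x' = w ^ d + b x'
          rw [h]
        have h2 : Per G (G^[i + 1] (x, y)) := by
          rw [Function.iterate_succ_apply', hxu, h1]
          exact hperw.map
        have hjR : R ≤ R * j := Nat.le_mul_of_pos_right _ hj1
        exact hlm (i + 1) (by omega) h2
      obtain ⟨n, hn⟩ : ∃ n, R * j = n + 1 := by
        have : 0 < R * j := Nat.mul_pos hR0 hj1
        exact ⟨R * j - 1, by omega⟩
      rw [hn] at hfixw hxz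
      have hmem := H X φ b Hb x' u w z n hpreu hw0 hpow hzw hfixw hxz hne
      apply Finset.mem_union_right
      rw [Finset.mem_biUnion]
      refine ⟨u / w, hF.mem_toFinset.mpr hmem, ?_⟩
      rw [Finset.mem_image]
      exact ⟨w, (hPmem _ _).mpr hperw, div_mul_cancel₀ _ hw0⟩
  -- counting
  have hpc : ∀ i, ∃ Q' : Finset K, Q'.card ≤ d ^ i * (Q (φ^[i] x)).card ∧
      ∀ y, (G^[i] (x, y)).2 ∈ Q (φ^[i] x) → y ∈ Q' := fun i =>
    preim_card φ b (by omega) i x (Q (φ^[i] x))
  choose Q' hQ'c hQ' using hpc
  have hsub : {y : K | Pre G (x, y)} ⊆ (((Finset.range (R + 1)).biUnion Q' : Finset K) : Set K) := by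
    intro y hy
    obtain ⟨i, hi, h⟩ := hB y hy
    rw [Finset.mem_coe, Finset.mem_biUnion]
    exact ⟨i, Finset.mem_range.mpr (by omega), hQ' i y h⟩
  refine (Set.encard_le_encard hsub).trans ?_
  rw [Set.encard_coe_eq_coe_finsetCard]
  have h3 : ((Finset.range (R + 1)).biUnion Q').card ≤ ∑ i ∈ Finset.range (R + 1), d ^ i * q := by
    refine Finset.card_biUnion_le.trans (Finset.sum_le_sum fun i _ => ?_)
    exact (hQ'c i).trans (Nat.mul_le_mul_left _ (hQc _))
  exact_mod_cast h3

/-- **Preperiodic points in the fibres over a preperiodic point of the base.** -/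
theorem fibre_pre' (K : Type) [Field K] [NumberField K] (S : Set (Pl K)) (hS : S.Finite) {d : ℕ}
    (hd : 5 ≤ d) (r : ℕ) :
    ∃ B : ℕ, ∀ (X : Type) (φ : X → X) (b : X → K), (∀ v ∉ S, SD v b) → ∀ (x : X) (A : Finset X),
      (∀ k, φ^[k] x ∈ A) → A.card ≤ r →
      {y : K | Pre (sk φ (fun _ z => z) d b) (x, y)}.encard ≤ B := by
  classical
  obtain ⟨B, hB⟩ := fibre_pre K S hS hd r
  refine ⟨d ^ r * B, fun X φ b Hb x A hA hAr => ?_⟩
  obtain ⟨i, hi, p, hp1, hpr, hfix⟩ := pigeon φ x A hA hAr
  set G : X × K → X × K := sk φ (fun _ z => z) d b with hG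
  have h1 := hB X φ b Hb (φ^[i] x) p hp1 hpr hfix
  have hfin : {y : K | Pre G (φ^[i] x, y)}.Finite := Set.finite_of_encard_le_coe h1
  obtain ⟨Q', hQ'c, hQ'⟩ := preim_card φ b (show 0 < d by omega) i x hfin.toFinset
  have hsub : {y : K | Pre G (x, y)} ⊆ ((Q' : Finset K) : Set K) := by
    intro y hy
    rw [Finset.mem_coe]
    apply hQ'
    rw [hfin.mem_toFinset]
    show Pre G (φ^[i] x, (G^[i] (x, y)).2)
    have h3 : (φ^[i] x, (G^[i] (x, y)).2) = G^[i] (x, y) := Prod.ext (sk_fst φ (fun _ z => z) d b i (x, y)).symm rfl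
    rw [h3]
    exact Pre.iter hy i
  refine (Set.encard_le_encard hsub).trans ?_
  rw [Set.encard_coe_eq_coe_finsetCard]
  rw [hfin.encard_eq_coe_toFinset_card] at h1
  have h1' : hfin.toFinset.card ≤ B := by exact_mod_cast h1
  have h2 : Q'.card ≤ d ^ r * B :=
    hQ'c.trans (Nat.mul_le_mul (Nat.pow_le_pow_right (by omega) hi) h1')
  exact_mod_cast h2

end Pool.Agent.Helper80.SG
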