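import Mathlib
import Pool.Agent.Helper80.SG.TriAll

set_option autoImplicit false

open IsDedekindDomain NumberField Polynomial

namespace Pool.Agent.Helper80.SG

open Pool.Agent.Helper80.UC Pool.Agent.Helper80.QP

variable {K : Type} [Field K] [NumberField K] {N : ℕ}

/-- the affine triangular map -/
def tow (d : ℕ) (g : Fin N → (Fin N → K) → K) (y : Fin N → K) : Fin N → K :=
  fun i => y i ^ d + g i y

/-- triangular data with controlled denominators outside `S` -/
structure Tower (S : Set (Pl K)) (d : ℕ) (g : Fin N → (Fin N → K) → K) : Prop where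
  dep : ∀ (i : Fin N) (y y' : Fin N → K), (∀ j < i, y j = y' j) → g i y = g i y'
  loc : ∀ v ∉ S, ∃ γ : Fin N → ℤ, ∀ (i : Fin N) (y : Fin N → K),
    (∀ j < i, y j = 0 ∨ γ j ≤ d * o v (y j)) →
      (γ i = 0 ∧ g i y ∈ A v) ∨ (γ i < 0 ∧ g i y ≠ 0 ∧ o v (g i y) = γ i)

/-- truncation -/
def trunc (n : ℕ) (y : Fin N → K) : Fin N → K := fun j => if j.val < n then y j else 0

omit [NumberField K] in
lemma trunc_of_lt {n : ℕ} (y : Fin N → K) {j : Fin N} (h : j.val < n) : trunc n y j = y j :=
  if_pos h

/-- the truncated preperiodic points -/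
def AT (d : ℕ) (g : Fin N → (Fin N → K) → K) (n : ℕ) : Set (Fin N → K) :=
  {x | ∃ y, Pre (tow d g) y ∧ x = trunc n y}

section tower

variable {S : Set (Pl K)} {d : ℕ} {g : Fin N → (Fin N → K) → K}

lemma tow_trunc (H : Tower S d g) (n : ℕ) (y : Fin N → K) :
    trunc n (tow d g (trunc n y)) = trunc n (tow d g y) := by
  funext j
  by_cases h : j.val < n
  · rw [trunc_of_lt _ h, trunc_of_lt _ h]
    simp only [tow]
    rw [trunc_of_lt _ h]
    congr 1
    apply H.dep
    intro k hk
    exact trunc_of_lt _ (lt_trans (show k.val < j.val from hk) h)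
  · simp [trunc, h]

/-- the base map at level `n` -/
def phi (H : Tower S d g) (n : ℕ) (x : AT d g n) : AT d g n :=
  ⟨trunc n (tow d g x.1), by
    obtain ⟨y, hy, hx⟩ := x.2
    exact ⟨tow d g y, hy.map, by rw [hx, tow_trunc H]⟩⟩

/-- the semiconjugacy -/
lemma tow_pre (H : Tower S d g) (i : Fin N) (y : Fin N → K) (hy : Pre (tow d g) y) :
    Pre (sk (phi H i.val) (fun _ z => z) d (fun x => g i x.1)) (⟨trunc i.val y, y, hy, rfl⟩, y i) := by
  let Y : Type := {y : Fin N → K // Pre (tow d g) y}
  let f : Y → Y := fun y => ⟨tow d g y.1, y.2.map⟩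
  have h1 : Pre f ⟨y, hy⟩ := Pre.pull (f := f) (g := tow d g) (fun y => y.1)
    Subtype.val_injective (fun _ => rfl) hy
  let G : Y → (AT d g i.val) × K := fun y => (⟨trunc i.val y.1, y.1, y.2, rfl⟩, y.1 i)
  refine Pre.push (f := f) (g := sk (phi H i.val) (fun _ z => z) d (fun x => g i x.1)) G ?_ h1
  rintro ⟨y, hy⟩
  refine Prod.ext (Subtype.ext ?_) ?_
  · show trunc i.val (tow d g y) = trunc i.val (tow d g (trunc i.val y))
    rw [tow_trunc H]
  · show y i ^ d + g i y = y i ^ d + g i (trunc i.val y)
    congr 1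
    apply H.dep
    intro k hk
    exact (trunc_of_lt _ hk).symm

/-- valuations of the coordinates of preperiodic points, and the same-denominator property -/
lemma tow_val (H : Tower S d g) (hd : 2 ≤ d) {v : Pl K} (hv : v ∉ S) :
    ∃ γ : Fin N → ℤ, (∀ (i : Fin N) (y : Fin N → K),
      (∀ j < i, y j = 0 ∨ γ j ≤ d * o v (y j)) →
      (γ i = 0 ∧ g i y ∈ A v) ∨ (γ i < 0 ∧ g i y ≠ 0 ∧ o v (g i y) = γ i)) ∧
      ∀ (n : ℕ) (i : Fin N), i.val < n → ∀ y, Pre (tow d g) y → y i = 0 ∨ γ i ≤ d * o v (y i) := by
  obtain ⟨γ, hγ⟩ := H.loc v hv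
  refine ⟨γ, hγ, fun n => ?_⟩
  induction n with
  | zero => intro i hi; omega
  | succ n ih =>
    intro i hi y hy
    rcases Nat.lt_succ_iff_lt_or_eq.mp hi with h | h
    · exact ih i h y hy
    -- the values of `g i` on the truncated preperiodic points
    have hval : ∀ x : AT d g i.val, (γ i = 0 ∧ g i x.1 ∈ A v) ∨
        (γ i < 0 ∧ g i x.1 ≠ 0 ∧ o v (g i x.1) = γ i) := by
      rintro ⟨x, y', hy', rfl⟩
      refine hγ i _ fun j hj => ?_
      have e : trunc i.val y' j = y' j := trunc_of_lt _ (show j.val < i.val from hj)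
      show trunc i.val y' j = 0 ∨ γ j ≤ d * o v (trunc i.val y' j)
      rw [e]
      exact ih j (by rw [← h]; exact hj) y' hy'
    have hpre := tow_pre H i y hy
    rcases lt_trichotomy (γ i) 0 with hneg | hzero | hpos
    · right
      have h2 := sk_bad_val (h := fun (_ : AT d g i.val) z => z) (fun _ => GH_id v) le_rfl hd hneg
        (fun x => by
          rcases hval x with h | h
          · omega
          · exact h.2) hpre
      have := h2.2
      push_cast at this
      rw [mul_one] at this
      exact this.ge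
    · have h2 := sk_good_int (h := fun (_ : AT d g i.val) z => z) (fun _ => GH_id v) le_rfl hd
        (fun x => by
          rcases hval x with h | h
          · exact h.2
          · omega) hpre
      right
      rw [hzero]
      have := o_nonneg v h2
      exact mul_nonneg (by positivity) this
    · exfalso
      rcases hval ⟨_, y, hy, rfl⟩ with h | h
      · omega
      · omega

lemma tow_SD (H : Tower S d g) (hd : 2 ≤ d) (i : Fin N) :
    ∀ v ∉ S, SD v (fun x : AT d g i.val => g i x.1) := by
  intro v hv
  obtain ⟨γ, hγ, hval⟩ := tow_val H hd hv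
  have hval : ∀ x : AT d g i.val, (γ i = 0 ∧ g i x.1 ∈ A v) ∨
      (γ i < 0 ∧ g i x.1 ≠ 0 ∧ o v (g i x.1) = γ i) := by
    rintro ⟨x, y', hy', rfl⟩
    refine hγ i _ fun j hj => ?_
    have e : trunc i.val y' j = y' j := trunc_of_lt _ (show j.val < i.val from hj)
    show trunc i.val y' j = 0 ∨ γ j ≤ d * o v (trunc i.val y' j)
    rw [e]
    exact hval N j j.2 y' hy'
  by_cases h0 : γ i < 0
  · right
    exact ⟨γ i, h0, fun x => by
      rcases hval x with h | h
      · omega
      · exact h.2⟩
  · left
    intro x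
    rcases hval x with h | h
    · exact h.2
    · omega

end tower

/-- **The number of preperiodic points of the affine triangular maps.** -/
theorem tow_count (K : Type) [Field K] [NumberField K] (S : Set (Pl K)) (hS : S.Finite) (N : ℕ)
    {d : ℕ} (hd : 5 ≤ d) (n : ℕ) : n ≤ N → ∃ C : ℕ, ∀ g : Fin N → (Fin N → K) → K, Tower S d g →
      (AT d g n).encard ≤ C := by
  classical
  induction n with
  | zero =>
    intro _
    refine ⟨1, fun g _ => ?_⟩
    have h1 : AT d g 0 ⊆ {(0 : Fin N → K)} := by
      rintro x ⟨y, -, rfl⟩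
      funext j
      simp [trunc]
    refine (Set.encard_le_encard h1).trans ?_
    rw [Set.encard_singleton]
    simp
  | succ n ih =>
    intro hn
    obtain ⟨C, hC⟩ := ih (by omega)
    obtain ⟨B, hB⟩ := fibre_pre' K S hS hd C
    refine ⟨C * B, fun g H => ?_⟩
    let i : Fin N := ⟨n, hn⟩
    have hfin : (AT d g n).Finite := Set.finite_of_encard_le_coe (hC g H)
    have hXfin : Finite (AT d g n) := hfin
    let _ : Fintype (AT d g n) := Fintype.ofFinite _
    have hcard : (Finset.univ : Finset (AT d g n)).card ≤ C := by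
      have h1 := hC g H
      have h2 : (AT d g n).encard = ((Finset.univ : Finset (AT d g n)).card : ℕ∞) := by
        rw [Finset.card_univ, ← Nat.card_eq_fintype_card, ← ENat.card_eq_coe_natCard]
        rfl
      rw [h2] at h1
      exact_mod_cast h1
    have hfib : ∀ x : AT d g n, {y : K | Pre (sk (phi H n) (fun _ z => z) d
        (fun x => g i x.1)) (x, y)}.encard ≤ B := fun x =>
      hB (AT d g n) (phi H n) (fun x => g i x.1) (tow_SD H (by omega) i) x Finset.univ
        (fun k => Finset.mem_univ _) hcard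
    have hfibfin : ∀ x : AT d g n, {y : K | Pre (sk (phi H n) (fun _ z => z) d
        (fun x => g i x.1)) (x, y)}.Finite := fun x => Set.finite_of_encard_le_coe (hfib x)
    let Q : AT d g n → Finset K := fun x => (hfibfin x).toFinset
    have hQc : ∀ x, (Q x).card ≤ B := by
      intro x
      have h1 := hfib x
      rw [(hfibfin x).encard_eq_coe_toFinset_card] at h1
      exact_mod_cast h1
    let R : Finset (Fin N → K) := (Finset.univ : Finset (AT d g n)).biUnion fun x =>
      (Q x).image fun z => Function.update x.1 i z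
    have hsub : AT d g (n + 1) ⊆ (R : Set (Fin N → K)) := by
      rintro x ⟨y, hy, rfl⟩
      rw [Finset.mem_coe, Finset.mem_biUnion]
      refine ⟨⟨trunc n y, y, hy, rfl⟩, Finset.mem_univ _, ?_⟩
      rw [Finset.mem_image]
      refine ⟨y i, ?_, ?_⟩
      · rw [Set.Finite.mem_toFinset]
        exact tow_pre H i y hy
      · funext j
        by_cases hj : j = i
        · subst hj
          rw [Function.update_self, trunc_of_lt]
          show n < n + 1
          omega
        · rw [Function.update_of_ne hj]
          have hne : j.val ≠ n := fun h => hj (Fin.ext h)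
          show trunc n y j = trunc (n + 1) y j
          by_cases hlt : j.val < n
          · rw [trunc_of_lt _ hlt, trunc_of_lt _ (by omega)]
          · simp only [trunc]
            rw [if_neg hlt, if_neg (by omega)]
    refine (Set.encard_le_encard hsub).trans ?_
    rw [Set.encard_coe_eq_coe_finsetCard]
    have h3 : R.card ≤ C * B := by
      refine (Finset.card_biUnion_le_card_mul _ _ B fun x _ =>
        Finset.card_image_le.trans (hQc x)).trans ?_
      exact Nat.mul_le_mul_right _ hcard
    exact_mod_cast h3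

/-- all the preperiodic points -/
theorem tow_all (K : Type) [Field K] [NumberField K] (S : Set (Pl K)) (hS : S.Finite) (N : ℕ)
    {d : ℕ} (hd : 5 ≤ d) : ∃ C : ℕ, ∀ g : Fin N → (Fin N → K) → K, Tower S d g →
      {y | Pre (tow d g) y}.encard ≤ C := by
  obtain ⟨C, hC⟩ := tow_count K S hS N hd N le_rfl
  refine ⟨C, fun g H => (Set.encard_le_encard ?_).trans (hC g H)⟩
  intro y hy
  refine ⟨y, hy, ?_⟩
  funext j
  rw [trunc_of_lt _ j.2]

end Pool.Agent.Helper80.SG
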