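import Mathlib
import Pool.Agent.Helper80.SG.Tower

set_option autoImplicit false

open IsDedekindDomain NumberField Matrix

namespace Pool.Agent.Helper80.SG

open Pool.Agent.Helper80.UC Pool.Agent.Helper80.QP

/-- the map `[x₀^d : x_i^d + H_i(x)]` on homogeneous coordinates -/
noncomputable def towMap {K : Type} [Field K] {N : ℕ} (d : ℕ) (H : Fin N → MvPolynomial (Fin (N + 1)) K)
    (x : Fin (N + 1) → K) : Fin (N + 1) → K :=
  Fin.cons (x 0 ^ d) fun i => x i.succ ^ d + MvPolynomial.eval x (H i)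

/-- dominant triangular data -/
structure Dominant {K : Type} [Field K] [NumberField K] {N : ℕ} (S : Set (Pl K)) (d : ℕ)
    (H : Fin N → MvPolynomial (Fin (N + 1)) K) : Prop where
  deg : ∀ i, ∀ m ∈ (H i).support, ∑ k, m k = d
  zer : ∀ i, ∀ m ∈ (H i).support, m 0 ≠ 0
  tri : ∀ i, ∀ m ∈ (H i).support, ∀ j : Fin N, i ≤ j → m j.succ = 0
  dom : ∀ v ∉ S, ∀ i, ∀ m ∈ (H i).support, m ≠ Finsupp.single 0 d →
    v.valuation K ((H i).coeff m) ^ d *
        ∏ j : Fin N, max 1 (v.valuation K ((H j).coeff (Finsupp.single 0 d))) ^ m j.succ ≤ 1 ∨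
      v.valuation K ((H i).coeff m) ^ d *
        ∏ j : Fin N, max 1 (v.valuation K ((H j).coeff (Finsupp.single 0 d))) ^ m j.succ <
          v.valuation K ((H i).coeff (Finsupp.single 0 d)) ^ d

section

variable {K : Type} [Field K] [NumberField K] {N : ℕ} {S : Set (Pl K)} {d : ℕ}
  {H : Fin N → MvPolynomial (Fin (N + 1)) K}

omit [NumberField K] in
lemma mon_split (x : Fin (N + 1) → K) (m : Fin (N + 1) →₀ ℕ) :
    ∏ k, x k ^ m k = x 0 ^ m 0 * ∏ j : Fin N, x j.succ ^ m j.succ := Fin.prod_univ_succ _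

lemma dom_loc (hd : 0 < d) (D : Dominant S d H) {v : Pl K} (hv : v ∉ S) :
    ∃ γ : Fin N → ℤ, ∀ (i : Fin N) (y : Fin N → K),
    (∀ j < i, y j = 0 ∨ γ j ≤ d * o v (y j)) →
      (γ i = 0 ∧ MvPolynomial.eval (Fin.cons 1 y : Fin (N + 1) → K) (H i) ∈ A v) ∨
      (γ i < 0 ∧ MvPolynomial.eval (Fin.cons 1 y : Fin (N + 1) → K) (H i) ≠ 0 ∧
        o v (MvPolynomial.eval (Fin.cons 1 y : Fin (N + 1) → K) (H i)) = γ i) := by
  classical
  let c : Fin N → K := fun j => (H j).coeff (Finsupp.single 0 d)
  let c' : Fin N → K := fun j => if c j ∈ A v then 1 else c j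
  have hc'0 : ∀ j, c' j ≠ 0 := by
    intro j
    by_cases h : c j ∈ A v
    · simp only [c', if_pos h]; exact one_ne_zero
    · simp only [c', if_neg h]; exact (not_mem_A v h).1
  have hmax : ∀ j, max 1 (v.valuation K ((H j).coeff (Finsupp.single 0 d))) =
      v.valuation K (c' j) := by
    intro j
    by_cases h : c j ∈ A v
    · simp only [c', if_pos h, map_one]
      exact max_eq_left (by rw [mem_A] at h; exact h)
    · simp only [c', if_neg h]
      refine max_eq_right ?_
      rw [mem_A, not_le] at h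
      exact h.le
  have hd' : (0 : ℤ) < d := by exact_mod_cast hd
  refine ⟨fun j => o v (c' j), fun i y hy => ?_⟩
  have hγle : ∀ j, o v (c' j) ≤ 0 := by
    intro j
    by_cases h : c j ∈ A v
    · simp [c', if_pos h]
    · simp only [c', if_neg h]; exact (not_mem_A v h).2.le
  -- every nonconstant term
  have hterm : ∀ m ∈ (H i).support, m ≠ Finsupp.single 0 d →
      (H i).coeff m * ∏ k, (Fin.cons 1 y : Fin (N + 1) → K) k ^ m k = 0 ∨
      0 ≤ o v ((H i).coeff m * ∏ k, (Fin.cons 1 y : Fin (N + 1) → K) k ^ m k) ∨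
      (c i ≠ 0 ∧
        o v (c i) < o v ((H i).coeff m * ∏ k, (Fin.cons 1 y : Fin (N + 1) → K) k ^ m k)) := by
    intro m hm hm0
    by_cases ht : (H i).coeff m * ∏ k, (Fin.cons 1 y : Fin (N + 1) → K) k ^ m k = 0
    · exact Or.inl ht
    right
    have ha0 : (H i).coeff m ≠ 0 := MvPolynomial.mem_support_iff.mp hm
    have hp0 : ∀ j : Fin N, y j ^ m j.succ ≠ 0 := by
      have h1 := right_ne_zero_of_mul ht
      rw [mon_split] at h1
      have h2 := right_ne_zero_of_mul h1
      intro j
      have := Finset.prod_ne_zero_iff.mp h2 j (Finset.mem_univ j)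
      simpa using this
    have hprod : ∏ k, (Fin.cons 1 y : Fin (N + 1) → K) k ^ m k = ∏ j : Fin N, y j ^ m j.succ := by
      rw [mon_split]
      simp
    have hsum : d * o v ((H i).coeff m * ∏ k, (Fin.cons 1 y : Fin (N + 1) → K) k ^ m k) =
        d * o v ((H i).coeff m) + ∑ j : Fin N, (m j.succ : ℤ) * (d * o v (y j)) := by
      rw [hprod, o_mul v ha0 (Finset.prod_ne_zero_iff.mpr fun j _ => hp0 j),
        o_prod v _ _ (fun j _ => hp0 j), mul_add, Finset.mul_sum]
      congr 1
      refine Finset.sum_congr rfl fun j _ => ?_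
      rw [o_pow]; ring
    have hge : d * o v ((H i).coeff m) + ∑ j : Fin N, (m j.succ : ℤ) * o v (c' j) ≤
        d * o v ((H i).coeff m * ∏ k, (Fin.cons 1 y : Fin (N + 1) → K) k ^ m k) := by
      rw [hsum]
      refine add_le_add le_rfl (Finset.sum_le_sum fun j _ => ?_)
      by_cases hji : j < i
      · rcases hy j hji with h0 | h0
        · have h1 := hp0 j
          rw [h0] at h1
          have : m j.succ = 0 := by
            by_contra h2
            exact h1 (zero_pow h2)
          rw [this]; simp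
        · exact mul_le_mul_of_nonneg_left h0 (by positivity)
      · rw [D.tri i m hm j (not_lt.mp hji)]; simp
    -- the element whose valuation occurs in the hypothesis
    have hE0 : (H i).coeff m ^ d * ∏ j : Fin N, c' j ^ m j.succ ≠ 0 :=
      mul_ne_zero (pow_ne_zero _ ha0) (Finset.prod_ne_zero_iff.mpr fun j _ => pow_ne_zero _ (hc'0 j))
    have hE : o v ((H i).coeff m ^ d * ∏ j : Fin N, c' j ^ m j.succ) =
        d * o v ((H i).coeff m) + ∑ j : Fin N, (m j.succ : ℤ) * o v (c' j) := by
      rw [o_mul v (pow_ne_zero _ ha0)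
        (Finset.prod_ne_zero_iff.mpr fun j _ => pow_ne_zero _ (hc'0 j)), o_pow,
        o_prod v _ _ (fun j _ => pow_ne_zero _ (hc'0 j))]
      congr 1
      refine Finset.sum_congr rfl fun j _ => ?_
      rw [o_pow]
    have hval : v.valuation K ((H i).coeff m) ^ d *
        ∏ j : Fin N, max 1 (v.valuation K ((H j).coeff (Finsupp.single 0 d))) ^ m j.succ =
        v.valuation K ((H i).coeff m ^ d * ∏ j : Fin N, c' j ^ m j.succ) := by
      rw [map_mul, map_pow, map_prod]
      congr 1
      refine Finset.prod_congr rfl fun j _ => ?_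
      rw [hmax, map_pow]
    rcases D.dom v hv i m hm hm0 with h | h
    · left
      rw [hval, ← map_one (v.valuation K), val_le_iff v hE0 one_ne_zero, o_one, hE] at h
      have h1 : (0 : ℤ) ≤ d * o v ((H i).coeff m *
          ∏ k, (Fin.cons 1 y : Fin (N + 1) → K) k ^ m k) := h.trans hge
      exact nonneg_of_mul_nonneg_right h1 hd'
    · right
      have hci : c i ≠ 0 := by
        intro h0
        have h0' : (H i).coeff (Finsupp.single 0 d) = 0 := h0
        rw [h0', map_zero, zero_pow (by omega)] at h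
        exact absurd h (not_lt.mpr zero_le)
      refine ⟨hci, ?_⟩
      rw [hval, ← map_pow, val_lt_iff v hE0 (pow_ne_zero _ hci), o_pow, hE] at h
      have h1 := h.trans_le hge
      exact lt_of_mul_lt_mul_left h1 hd'.le
  -- split the constant term
  have hev : MvPolynomial.eval (Fin.cons 1 y : Fin (N + 1) → K) (H i) = c i +
      ∑ m ∈ (H i).support.erase (Finsupp.single 0 d),
        (H i).coeff m * ∏ k, (Fin.cons 1 y : Fin (N + 1) → K) k ^ m k := by
    rw [MvPolynomial.eval_eq']
    by_cases hmem : Finsupp.single 0 d ∈ (H i).support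
    · rw [← Finset.add_sum_erase _ _ hmem]
      congr 1
      rw [mon_split]
      simp only [Fin.cons_zero, one_pow, one_mul, Fin.cons_succ]
      rw [Finset.prod_eq_one, mul_one]
      intro j _
      rw [Finsupp.single_eq_of_ne (Fin.succ_ne_zero j), pow_zero]
    · have h0 : c i = 0 := MvPolynomial.notMem_support_iff.mp hmem
      rw [h0, zero_add, Finset.erase_eq_of_notMem hmem]
  rw [hev]
  by_cases hci : c i ∈ A v
  · left
    refine ⟨?_, ?_⟩
    · simp [c', if_pos hci]
    · refine add_mem hci (sum_mem fun m hm => ?_)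
      obtain ⟨hm0, hm⟩ := Finset.mem_erase.mp hm
      rcases hterm m hm hm0 with h | h | ⟨-, h⟩
      · rw [h]; exact zero_mem _
      · exact mem_A_of v h
      · have := o_nonneg v hci
        exact mem_A_of v (by omega)
  · right
    obtain ⟨hci0, hcineg⟩ := not_mem_A v hci
    have hγ : o v (c' i) = o v (c i) := by simp only [c', if_neg hci]
    have hs : ∑ m ∈ (H i).support.erase (Finsupp.single 0 d),
        (H i).coeff m * ∏ k, (Fin.cons 1 y : Fin (N + 1) → K) k ^ m k = 0 ∨
        o v (c i) + 1 ≤ o v (∑ m ∈ (H i).support.erase (Finsupp.single 0 d),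
        (H i).coeff m * ∏ k, (Fin.cons 1 y : Fin (N + 1) → K) k ^ m k) := by
      refine Finset.sum_induction _ (fun z => z = 0 ∨ o v (c i) + 1 ≤ o v z) ?_ (Or.inl rfl) ?_
      · intro a b ha hb
        by_cases hab : a + b = 0
        · exact Or.inl hab
        · exact Or.inr (o_add_ge v hab ha hb)
      · intro m hm
        obtain ⟨hm0, hm⟩ := Finset.mem_erase.mp hm
        rcases hterm m hm hm0 with h | h | ⟨-, h⟩
        · exact Or.inl h
        · right; omega
        · right; omega
    have h3 := o_add_lt' v hci0 (y := ∑ m ∈ (H i).support.erase (Finsupp.single 0 d),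
        (H i).coeff m * ∏ k, (Fin.cons 1 y : Fin (N + 1) → K) k ^ m k) (by
      rcases hs with h | h
      · exact Or.inl h
      · right; omega)
    refine ⟨?_, h3.1, ?_⟩
    · show o v (c' i) < 0
      rw [hγ]; exact hcineg
    · show _ = o v (c' i)
      rw [hγ]; exact h3.2

lemma dom_tower (hd : 0 < d) (D : Dominant S d H) :
    Tower S d (fun i (y : Fin N → K) => MvPolynomial.eval (Fin.cons 1 y : Fin (N + 1) → K) (H i)) where
  dep := by
    intro i y y' h
    simp only [MvPolynomial.eval_eq']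
    refine Finset.sum_congr rfl fun m hm => ?_
    congr 1
    rw [mon_split, mon_split]
    simp only [Fin.cons_zero, Fin.cons_succ]
    congr 1
    refine Finset.prod_congr rfl fun j _ => ?_
    by_cases hji : j < i
    · rw [h j hji]
    · rw [D.tri i m hm j (not_lt.mp hji), pow_zero, pow_zero]
  loc v hv := dom_loc hd D hv

omit [NumberField K] in
lemma towMap_zero (x : Fin (N + 1) → K) : towMap d H x 0 = x 0 ^ d := rfl

omit [NumberField K] in
lemma towMap_succ (x : Fin (N + 1) → K) (i : Fin N) :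
    towMap d H x i.succ = x i.succ ^ d + MvPolynomial.eval x (H i) := rfl

lemma towMap_smul (D : Dominant S d H) (a : K) (x : Fin (N + 1) → K) :
    towMap d H (a • x) = a ^ d • towMap d H x := by
  ext i
  refine Fin.cases ?_ (fun i => ?_) i
  · simp [towMap_zero, mul_pow]
  · rw [towMap_succ, Pi.smul_apply, Pi.smul_apply, towMap_succ, smul_eq_mul, smul_eq_mul, mul_pow,
      mul_add]
    congr 1
    rw [MvPolynomial.eval_eq', MvPolynomial.eval_eq', Finset.mul_sum]
    refine Finset.sum_congr rfl fun m hm => ?_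
    have h1 : ∏ k, (a • x) k ^ m k = a ^ d * ∏ k, x k ^ m k := by
      rw [← D.deg i m hm, ← Finset.prod_pow_eq_pow_sum, ← Finset.prod_mul_distrib]
      refine Finset.prod_congr rfl fun k _ => ?_
      rw [Pi.smul_apply, smul_eq_mul, mul_pow]
    rw [h1]; ring

omit [NumberField K] in
lemma towMap_iter_one (n : ℕ) (y : Fin N → K) :
    (towMap d H)^[n] (Fin.cons 1 y : Fin (N + 1) → K) =
      (Fin.cons 1 ((tow d (fun i (y : Fin N → K) =>
        MvPolynomial.eval (Fin.cons 1 y : Fin (N + 1) → K) (H i)))^[n] y) : Fin (N + 1) → K) := by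
  induction n with
  | zero => rfl
  | succ n ih =>
    rw [Function.iterate_succ_apply', Function.iterate_succ_apply', ih]
    ext i
    refine Fin.cases ?_ (fun i => ?_) i
    · simp [towMap_zero]
    · rw [towMap_succ]
      simp [tow]

lemma towMap_iter_zero (D : Dominant S d H) (hd : d ≠ 0) (n : ℕ) (x : Fin (N + 1) → K)
    (hx : x 0 = 0) : ((towMap d H)^[n] x) 0 = 0 ∧
      ∀ i : Fin N, ((towMap d H)^[n] x) i.succ = (fun z : K => z ^ d + 0)^[n] (x i.succ) := by
  induction n with
  | zero => exact ⟨hx, fun i => rfl⟩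
  | succ n ih =>
    obtain ⟨h0, h1⟩ := ih
    refine ⟨?_, fun i => ?_⟩
    · rw [Function.iterate_succ_apply', towMap_zero, h0, zero_pow hd]
    · rw [Function.iterate_succ_apply', Function.iterate_succ_apply', towMap_succ, h1]
      congr 1
      rw [MvPolynomial.eval_eq']
      refine Finset.sum_eq_zero fun m hm => ?_
      rw [mon_split, h0, zero_pow (D.zer i m hm), zero_mul, mul_zero]

lemma tow_norm (D : Dominant S d H) (hd : d ≠ 0) (x : Fin (N + 1) → K)
    (hx : x ≠ 0) (m n : ℕ) (a : K) (h : (towMap d H)^[n] x = a • (towMap d H)^[m] x) :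
    ∃ (b : K) (y : Fin (N + 1) → K), b ≠ 0 ∧ x = b • y ∧
      (towMap d H)^[n] y = (towMap d H)^[m] y ∧ (y 0 = 1 ∨ y 0 = 0) := by
  have hsm := towMap_smul D
  by_cases h0 : x 0 = 0
  · obtain ⟨j, hj⟩ : ∃ j, x j ≠ 0 := by
      by_contra hcon
      push Not at hcon
      exact hx (funext hcon)
    refine ⟨x j, (x j)⁻¹ • x, hj, by rw [smul_smul, mul_inv_cancel₀ hj, one_smul], ?_, ?_⟩
    · refine norm_at hsm x j hj (fun k => ?_) m n a h
      obtain ⟨i, rfl⟩ : ∃ i : Fin N, i.succ = j := by
        rw [Fin.exists_succ_eq]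
        rintro rfl
        exact hj h0
      rw [(towMap_iter_zero D hd k ((x i.succ)⁻¹ • x) (by simp [h0])).2 i]
      have : ((x i.succ)⁻¹ • x) i.succ = 1 := by
        rw [Pi.smul_apply, smul_eq_mul]
        exact inv_mul_cancel₀ hj
      rw [this]
      apply Function.iterate_fixed
      simp
    · right
      rw [Pi.smul_apply, h0, smul_zero]
  · refine ⟨x 0, (x 0)⁻¹ • x, h0, by rw [smul_smul, mul_inv_cancel₀ h0, one_smul], ?_, ?_⟩
    · refine norm_at hsm x 0 h0 (fun k => ?_) m n a h
      induction k with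
      | zero => simp [h0]
      | succ k ih => rw [Function.iterate_succ_apply', towMap_zero, ih, one_pow]
    · left
      simp [h0]

end

/-- **Uniform bound for dominant triangular maps.** -/
theorem dom_all (K : Type) [Field K] [NumberField K] (S : Set (Pl K)) (hS : S.Finite) (N : ℕ)
    {d : ℕ} (hd : 5 ≤ d) : ∃ C : ℕ, ∀ H : Fin N → MvPolynomial (Fin (N + 1)) K, Dominant S d H →
      ∀ T : Finset (Fin (N + 1) → K), (∀ x ∈ T, x ≠ 0) →
      (∀ x ∈ T, ∀ y ∈ T, ∀ a : K, x = a • y → x = y) →
      (∀ x ∈ T, ∃ m n : ℕ, m < n ∧ ∃ a : K, (towMap d H)^[n] x = a • (towMap d H)^[m] x) →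
      T.card ≤ C := by
  classical
  obtain ⟨B1, hB1⟩ := UB1 K hd
  obtain ⟨C, hC⟩ := tow_all K S hS N hd
  have hfin1 : {x : K | Pre (fun z => z ^ d + 0) x}.Finite :=
    Set.finite_of_encard_le_coe (hB1 0)
  have hc1 : hfin1.toFinset.card ≤ B1 := by
    have h1 := hB1 0
    rw [hfin1.encard_eq_coe_toFinset_card] at h1
    exact_mod_cast h1
  refine ⟨C + B1 ^ (N + 1), ?_⟩
  intro H D T hT0 hTp hT
  have hd0 : d ≠ 0 := by omega
  have hCH := hC _ (dom_tower (show 0 < d by omega) D)
  set g : Fin N → (Fin N → K) → K := fun i (y : Fin N → K) =>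
    MvPolynomial.eval (Fin.cons 1 y : Fin (N + 1) → K) (H i) with hg
  have hfin2 : {y | Pre (tow d g) y}.Finite := Set.finite_of_encard_le_coe hCH
  have hc2 : hfin2.toFinset.card ≤ C := by
    rw [hfin2.encard_eq_coe_toFinset_card] at hCH
    exact_mod_cast hCH
  have hnorm : ∀ x ∈ T, ∃ (b : K) (y : Fin (N + 1) → K), b ≠ 0 ∧ x = b • y ∧
      ((∃ z ∈ hfin2.toFinset, y = Fin.cons 1 z) ∨ ∀ i, y i ∈ hfin1.toFinset) := by
    intro x hx
    obtain ⟨m, n, hmn, a, h⟩ := hT x hx
    obtain ⟨b, y, hb, hxy, hy, hy0⟩ := tow_norm D hd0 x (hT0 x hx) m n a h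
    refine ⟨b, y, hb, hxy, ?_⟩
    rcases hy0 with hy0 | hy0
    · left
      have hyc : y = Fin.cons 1 (fun i => y i.succ) := by
        ext i
        refine Fin.cases ?_ (fun i => ?_) i
        · simpa using hy0
        · simp
      refine ⟨fun i => y i.succ, ?_, hyc⟩
      rw [hfin2.mem_toFinset]
      refine ⟨m, n, hmn, ?_⟩
      rw [hyc, towMap_iter_one, towMap_iter_one] at hy
      exact (Fin.cons_inj.mp hy).2.symm
    · right
      intro i
      rw [hfin1.mem_toFinset]
      obtain ⟨h1, h2⟩ := towMap_iter_zero D hd0 n y hy0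
      obtain ⟨h1', h2'⟩ := towMap_iter_zero D hd0 m y hy0
      refine Fin.cases ?_ (fun i => ?_) i
      · rw [hy0]
        exact (pre_zero_one hd0).1
      · refine ⟨m, n, hmn, ?_⟩
        rw [hy] at h2
        exact (h2' i).symm.trans (h2 i)
  choose! b y hb hy hper using hnorm
  have hyinj : Set.InjOn y T := by
    intro x hx x' hx' h
    refine hTp x hx x' hx' (b x * (b x')⁻¹) ?_
    have h2 : (b x')⁻¹ • x' = y x' := by
      have h3 := congrArg (fun z => (b x')⁻¹ • z) (hy x' hx')
      simp only [smul_smul, inv_mul_cancel₀ (hb x' hx'), one_smul] at h3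
      exact h3
    calc x = b x • y x := hy x hx
      _ = b x • y x' := by rw [h]
      _ = (b x * (b x')⁻¹) • x' := by rw [← h2, smul_smul]
  let F1 : Finset (Fin (N + 1) → K) := hfin2.toFinset.image (fun z => Fin.cons 1 z)
  let F2 : Fin (N + 1) → Finset K := fun _ => hfin1.toFinset
  have hsub : T.image y ⊆ F1 ∪ Fintype.piFinset F2 := by
    intro z hz
    obtain ⟨x, hx, rfl⟩ := Finset.mem_image.mp hz
    rw [Finset.mem_union, Fintype.mem_piFinset, Finset.mem_image]
    rcases hper x hx with ⟨z, hz, h⟩ | h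
    · exact Or.inl ⟨z, hz, h.symm⟩
    · exact Or.inr h
  have hcard2 : (Fintype.piFinset F2).card ≤ B1 ^ (N + 1) := by
    rw [Fintype.card_piFinset]
    calc ∏ i, (F2 i).card ≤ ∏ _i : Fin (N + 1), B1 := Finset.prod_le_prod' fun i _ => hc1
      _ = B1 ^ (N + 1) := by simp
  calc T.card = (T.image y).card := (Finset.card_image_of_injOn hyinj).symm
    _ ≤ _ := Finset.card_le_card hsub
    _ ≤ F1.card + (Fintype.piFinset F2).card := Finset.card_union_le _ _
    _ ≤ C + B1 ^ (N + 1) := add_le_add (Finset.card_image_le.trans hc2) hcard2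

end Pool.Agent.Helper80.SG
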