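import Mathlib
import Pool.Agent.Helper80.SG.Dom

set_option autoImplicit false

open IsDedekindDomain NumberField Matrix

namespace Pool.Agent.Helper80.SG

open Pool.Agent.Helper80.UC Pool.Agent.Helper80.QP

/-- `S`-integral coupling terms of degree `< d` and a chain of denominators -/
theorem chain_dominant {K : Type} [Field K] [NumberField K] {N : ℕ} {S : Set (Pl K)} {d : ℕ}
    {H : Fin N → MvPolynomial (Fin (N + 1)) K}
    (deg : ∀ i, ∀ m ∈ (H i).support, ∑ k, m k = d)
    (zer : ∀ i, ∀ m ∈ (H i).support, m 0 ≠ 0)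
    (tri : ∀ i, ∀ m ∈ (H i).support, ∀ j : Fin N, i ≤ j → m j.succ = 0)
    (int : ∀ v ∉ S, ∀ i, ∀ m, m ≠ Finsupp.single 0 d → v.valuation K ((H i).coeff m) ≤ 1)
    (chain : ∀ v ∉ S, ∀ i j : Fin N, i ≤ j →
      max 1 (v.valuation K ((H i).coeff (Finsupp.single 0 d))) ≤
        max 1 (v.valuation K ((H j).coeff (Finsupp.single 0 d)))) :
    Dominant S d H where
  deg := deg
  zer := zer
  tri := tri
  dom := by
    intro v hv i m hm hm0
    set μ := max 1 (v.valuation K ((H i).coeff (Finsupp.single 0 d))) with hμ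
    have h1μ : 1 ≤ μ := le_max_left _ _
    have hprod : ∏ j : Fin N,
        max 1 (v.valuation K ((H j).coeff (Finsupp.single 0 d))) ^ m j.succ ≤
        μ ^ (∑ j : Fin N, m j.succ) := by
      rw [← Finset.prod_pow_eq_pow_sum]
      refine Finset.prod_le_prod' fun j _ => ?_
      by_cases hji : j < i
      · exact pow_le_pow_left' (chain v hv j i hji.le) _
      · rw [tri i m hm j (not_lt.mp hji), pow_zero, pow_zero]
    have hsum : ∑ j : Fin N, m j.succ ≤ d - 1 := by
      have h1 := deg i m hm
      rw [Fin.sum_univ_succ] at h1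
      have := zer i m hm
      omega
    have hd0 : d ≠ 0 := by
      intro h0
      have h1 := deg i m hm
      rw [Fin.sum_univ_succ, h0] at h1
      have := zer i m hm
      omega
    have ha : v.valuation K ((H i).coeff m) ^ d ≤ 1 := pow_le_one' (int v hv i m hm0) _
    have hle : v.valuation K ((H i).coeff m) ^ d * ∏ j : Fin N,
        max 1 (v.valuation K ((H j).coeff (Finsupp.single 0 d))) ^ m j.succ ≤ μ ^ (d - 1) := by
      calc _ ≤ 1 * μ ^ (∑ j : Fin N, m j.succ) := mul_le_mul' ha hprod
        _ = μ ^ (∑ j : Fin N, m j.succ) := one_mul _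
        _ ≤ μ ^ (d - 1) := pow_le_pow_right' h1μ hsum
    rcases h1μ.eq_or_lt with h | h
    · left
      rw [← h, one_pow] at hle
      exact hle
    · right
      have h2 : μ = v.valuation K ((H i).coeff (Finsupp.single 0 d)) := by
        rcases max_choice 1 (v.valuation K ((H i).coeff (Finsupp.single 0 d))) with h3 | h3
        · rw [← hμ] at h3
          rw [h3] at h
          exact absurd h (lt_irrefl _)
        · rw [hμ, h3]
      rw [← h2]
      exact hle.trans_lt (pow_lt_pow_right₀ h (by omega))

end Pool.Agent.Helper80.SG
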