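import Mathlib
import Pool.Agent.Helper80.SG.SInt

set_option autoImplicit false

open IsDedekindDomain NumberField Polynomial

namespace Pool.Agent.Helper80.SG

open Pool.Agent.Helper80.UC Pool.Agent.Helper80.QP

variable {K : Type} [Field K]

/-- the composition of the maps `z ↦ h(z)^d + b`, `(h, b)` running through the word `w`
(the first letter is applied first) -/
def compose (d : ℕ) : List (K[X] × K) → K → K
  | [] => id
  | p :: w => fun z => compose d w (p.1.eval z ^ d + p.2)

/-- rotation of a word -/
def rot {α : Type} : List α → List α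
  | [] => []
  | p :: w => w ++ [p]

lemma rot_iter {P : Type} (p0 : P) (g : P → K[X] × K) (d : ℕ) : ∀ (u v : List P) (y : K),
    (sk rot (fun l z => ((g (l.headD p0)).1).eval z) d (fun l => (g (l.headD p0)).2))^[u.length]
      (u ++ v, y) = (v ++ u, compose d (u.map g) y) := by
  intro u
  induction u with
  | nil => intro v y; simp [compose]
  | cons p u ih =>
    intro v y
    rw [List.length_cons, Function.iterate_succ_apply]
    have h1 : sk rot (fun l z => ((g (l.headD p0)).1).eval z) d (fun l => (g (l.headD p0)).2)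
        (p :: u ++ v, y) = (u ++ (v ++ [p]), (g p).1.eval y ^ d + (g p).2) := by
      simp [sk, rot]
    rw [h1, ih]
    simp [compose]

theorem comp_bound (K : Type) [Field K] [NumberField K] (S : Set (Pl K)) (hS : S.Finite)
    {d e : ℕ} (he : 1 ≤ e) (hd : 4 ≤ d) (hde : 5 ≤ d * e) :
    ∃ B : ℕ, ∀ w : List (K[X] × K), w ≠ [] → (∀ p ∈ w, SP S e p.1) →
      (∀ p ∈ w, ∀ q ∈ w, ∀ v ∉ S, max (v.valuation K p.2) 1 = max (v.valuation K q.2) 1) →
      {x : K | Per (compose d w) x}.encard ≤ B := by
  obtain ⟨B, hB⟩ := fibreS K S hS he hd hde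
  refine ⟨B, fun w hw hall hden => ?_⟩
  let P : Type := {p : K[X] × K // p ∈ w}
  obtain ⟨u, hu⟩ : ∃ u : List P, u.map Subtype.val = w :=
    ⟨w.attachWith _ (fun _ h => h), List.attachWith_map_subtype_val (fun _ h => h)⟩
  have hu0 : u ≠ [] := by
    rintro rfl
    apply hw
    rw [← hu]; rfl
  obtain ⟨p0, u', hu'⟩ := List.exists_cons_of_ne_nil hu0
  have hSD : ∀ v ∉ S, SD v (fun l : List P => (l.headD p0).1.2) := by
    intro v hv
    by_cases h0 : p0.1.2 ∈ A v
    · left
      intro l
      have h1 := hden _ (l.headD p0).2 _ p0.2 v hv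
      rw [mem_A] at h0 ⊢
      rw [max_eq_right h0] at h1
      rw [← h1]
      exact le_max_left _ _
    · right
      obtain ⟨hne, hneg⟩ := not_mem_A v h0
      refine ⟨o v p0.1.2, hneg, fun l => ?_⟩
      have h1 := hden _ (l.headD p0).2 _ p0.2 v hv
      rw [mem_A, not_le] at h0
      rw [max_eq_left h0.le] at h1
      have h2 : v.valuation K (l.headD p0).1.2 = v.valuation K p0.1.2 := by
        rcases max_choice (v.valuation K (l.headD p0).1.2) 1 with h3 | h3
        · rw [h3] at h1; exact h1
        · rw [h3] at h1
          rw [← h1] at h0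
          exact absurd h0 (lt_irrefl _)
      refine ⟨?_, by simp only [o, h2]⟩
      intro h3
      have h3' : (l.headD p0).1.2 = 0 := h3
      rw [h3', map_zero] at h2
      exact val_ne v hne h2.symm
  have h1 := hB (List P) rot (fun l => (l.headD p0).1.1) (fun l => (l.headD p0).1.2)
    (fun l => hall _ (l.headD p0).2) hSD u
  refine (Set.encard_le_encard ?_).trans h1
  rintro x ⟨n, hn, hx⟩
  have hlen : 0 < u.length := List.length_pos_iff.mpr hu0
  refine ⟨u.length * n, Nat.mul_pos hlen hn, ?_⟩
  have hstep : ∀ y, (sk rot (fun (l : List P) z => ((l.headD p0).1.1).eval z) d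
      (fun l => (l.headD p0).1.2))^[u.length] (u, y) = (u, compose d w y) := by
    intro y
    have := rot_iter p0 Subtype.val d u [] y
    rw [List.append_nil, List.nil_append, hu] at this
    exact this
  have hn' : ∀ (m : ℕ) (y : K), ((sk rot (fun (l : List P) z => ((l.headD p0).1.1).eval z) d
      (fun l => (l.headD p0).1.2))^[u.length])^[m] (u, y) = (u, (compose d w)^[m] y) := by
    intro m
    induction m with
    | zero => intro y; rfl
    | succ m ih =>
      intro y
      rw [Function.iterate_succ_apply, hstep, ih, Function.iterate_succ_apply]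
  rw [Function.iterate_mul, hn', hx]

end Pool.Agent.Helper80.SG
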