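import Mathlib
import Pool.Agent.Helper80.QP.Main
import Pool.Agent.Helper80.SG.Tri

set_option autoImplicit false

open IsDedekindDomain NumberField Polynomial Matrix

namespace Pool.Agent.Helper80.SG

open Pool.Agent.Helper80.UC Pool.Agent.Helper80.QP

section alg

variable {F : Type} [Field F]

/-- the homogeneous form `D` of degree `d` with `D (1, a+b, ab) = a^d + b^d` -/
noncomputable def dick (d : ℕ) (x : Fin 3 → F) : F := (dickson 1 (x 0 * x 2) d).eval (x 1)

lemma dick_pair (d : ℕ) (p q : Fin 2 → F) :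
    dick d ![p 0 * q 0, p 0 * q 1 + p 1 * q 0, p 1 * q 1] =
      p 0 ^ d * q 1 ^ d + p 1 ^ d * q 0 ^ d := by
  simp only [dick, Matrix.cons_val_zero, Matrix.cons_val_one, Matrix.cons_val]
  induction d using Nat.twoStepInduction with
  | zero => simp [dickson_zero]; norm_num
  | one => simp [dickson_one]
  | more n h0 h1 =>
    rw [dickson_add_two, eval_sub, eval_mul, eval_mul, eval_X, eval_C, h0, h1]
    ring

lemma dick_smul (d : ℕ) (t : F) (x : Fin 3 → F) : dick d (t • x) = t ^ d * dick d x := by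
  simp only [dick, Pi.smul_apply, smul_eq_mul]
  induction d using Nat.twoStepInduction with
  | zero => simp [dickson_zero]
  | one => simp [dickson_one]
  | more n h0 h1 =>
    rw [dickson_add_two, dickson_add_two, eval_sub, eval_sub, eval_mul, eval_mul, eval_mul,
      eval_mul, eval_X, eval_X, eval_C, eval_C, h0, h1]
    ring

lemma dick_map {E : Type} [Field E] (φ : F →+* E) (d : ℕ) (x : Fin 3 → F) :
    φ (dick d x) = dick d (φ ∘ x) := by
  simp only [dick, Function.comp]
  rw [← map_mul, ← map_dickson, eval_map, eval₂_at_apply]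

lemma dick_inf (d : ℕ) (hd : d ≠ 0) (x : Fin 3 → F) (hx : x 0 = 0) : dick d x = x 1 ^ d := by
  have h := dick_pair d ![0, 1] ![x 1, x 2]
  simp only [Matrix.cons_val_zero, Matrix.cons_val_one, zero_mul, one_mul, zero_add, one_pow,
    zero_pow hd] at h
  rw [← h]
  congr 1
  ext i
  fin_cases i
  · simpa using hx
  · rfl
  · rfl

/-- the symmetric square of `τ z^d + c` -/
noncomputable def symSq (d : ℕ) (τ c : F) (x : Fin 3 → F) : Fin 3 → F :=
  ![x 0 ^ d, τ * dick d x + 2 * c * x 0 ^ d,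
    τ ^ 2 * x 2 ^ d + τ * c * dick d x + c ^ 2 * x 0 ^ d]

lemma symSq_smul (d : ℕ) (τ c : F) (t : F) (x : Fin 3 → F) :
    symSq d τ c (t • x) = t ^ d • symSq d τ c x := by
  ext i
  fin_cases i
  · simp [symSq, mul_pow]
  · simp only [symSq, dick_smul, Fin.mk_one, Matrix.cons_val_one, Pi.smul_apply, smul_eq_mul,
      mul_pow]
    simp
    ring
  · simp only [symSq, dick_smul, Pi.smul_apply, smul_eq_mul, mul_pow, Fin.reduceFinMk,
      Matrix.cons_val]
    ring

lemma symSq_pair (d : ℕ) (τ c : F) (p q : Fin 2 → F) :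
    symSq d τ c ![p 0 * q 0, p 0 * q 1 + p 1 * q 0, p 1 * q 1] =
      ![p 0 ^ d * q 0 ^ d, p 0 ^ d * (τ * q 1 ^ d + c * q 0 ^ d) +
        (τ * p 1 ^ d + c * p 0 ^ d) * q 0 ^ d,
        (τ * p 1 ^ d + c * p 0 ^ d) * (τ * q 1 ^ d + c * q 0 ^ d)] := by
  simp only [symSq, dick_pair]
  ext i
  fin_cases i
  · simp [mul_pow]
  · simp [mul_pow]; ring
  · simp [mul_pow]; ring

/-- the pair `{a, b}` of affine points -/
def spr (a b : F) : Fin 3 → F := ![1, a + b, a * b]

lemma symSq_spr (d : ℕ) (τ c : F) (a b : F) :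
    symSq d τ c (spr a b) = spr (τ * a ^ d + c) (τ * b ^ d + c) := by
  have h := symSq_pair d τ c ![1, a] ![1, b]
  simp only [Matrix.cons_val_zero, Matrix.cons_val_one, one_pow, one_mul, mul_one] at h
  rw [spr, add_comm a b, h, spr, add_comm (τ * a ^ d + c)]

lemma symSq_inf (d : ℕ) (hd : d ≠ 0) (τ c z : F) :
    symSq d τ c ![0, 1, z] = τ • ![0, 1, τ * z ^ d + c] := by
  ext i
  fin_cases i
  · simp [symSq, hd]
  · simp [symSq, hd, dick_inf d hd ![0, 1, z] rfl]
  · simp [symSq, hd, dick_inf d hd ![0, 1, z] rfl]; ring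

lemma symSq_pt (d : ℕ) (hd : d ≠ 0) (τ c : F) :
    symSq d τ c ![0, 0, 1] = τ ^ 2 • ![0, 0, 1] := by
  have h0 : dick d (![0, 0, 1] : Fin 3 → F) = 0 := by
    rw [dick_inf d hd _ (by simp)]
    simp [hd]
  ext i
  fin_cases i
  · simp [symSq, hd]
  · simp [symSq, hd, h0]
  · simp [symSq, hd, h0]

lemma spr_eq {a b a' b' : F} (h : spr a b = spr a' b') : (a = a' ∧ b = b') ∨ (a = b' ∧ b = a') := by
  have h1 : a + b = a' + b' := by simpa [spr] using congrFun h 1
  have h2 : a * b = a' * b' := by simpa [spr] using congrFun h 2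
  have h3 : (a - a') * (a - b') = 0 := by linear_combination a * h1 - h2
  rcases mul_eq_zero.mp h3 with h4 | h4
  · left
    have h5 : a = a' := by linear_combination h4
    refine ⟨h5, ?_⟩
    rw [h5] at h1
    exact add_left_cancel h1
  · right
    have h5 : a = b' := by linear_combination h4
    refine ⟨h5, ?_⟩
    rw [h5, add_comm a' b'] at h1
    exact add_left_cancel h1

end alg

section main

variable {K W : Type} [Field K] [Field W] [Algebra K W]

lemma symSq_map (d : ℕ) (τ c : K) (x : Fin 3 → K) :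
    algebraMap K W ∘ symSq d τ c x =
      symSq d (algebraMap K W τ) (algebraMap K W c) (algebraMap K W ∘ x) := by
  ext i
  fin_cases i
  · simp [symSq]
  · simp only [symSq, Fin.mk_one, Function.comp_apply, Matrix.cons_val_one,
      Matrix.cons_val_zero, map_add, map_mul, map_pow, dick_map, map_ofNat]
  · simp only [symSq, Fin.reduceFinMk, Function.comp_apply, Matrix.cons_val, map_add, map_mul,
      map_pow, dick_map]

lemma symSq_iter_spr (d : ℕ) (τ c : K) (a b : W) (n : ℕ) :
    (symSq d (algebraMap K W τ) (algebraMap K W c))^[n] (spr a b) =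
      spr ((Ft K d τ c)^[n] a) ((Ft K d τ c)^[n] b) := by
  induction n with
  | zero => rfl
  | succ n ih =>
    rw [Function.iterate_succ_apply', Function.iterate_succ_apply', Function.iterate_succ_apply',
      ih, symSq_spr]
    rfl

lemma symSq_iter_map (d : ℕ) (τ c : K) (x : Fin 3 → K) (n : ℕ) :
    algebraMap K W ∘ (symSq d τ c)^[n] x =
      (symSq d (algebraMap K W τ) (algebraMap K W c))^[n] (algebraMap K W ∘ x) := by
  induction n with
  | zero => rfl
  | succ n ih =>
    rw [Function.iterate_succ_apply', Function.iterate_succ_apply', symSq_map, ih]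

lemma symSq_iter_inf (d : ℕ) (hd : d ≠ 0) {τ : K} (hτ : τ ≠ 0) (c z : K) (n : ℕ) :
    ∃ b : K, b ≠ 0 ∧ (symSq d τ c)^[n] ![0, 1, z] = b • ![0, 1, (fun z => τ * z ^ d + c)^[n] z] := by
  induction n with
  | zero => exact ⟨1, one_ne_zero, by simp⟩
  | succ n ih =>
    obtain ⟨b, hb, h⟩ := ih
    refine ⟨b ^ d * τ, mul_ne_zero (pow_ne_zero _ hb) hτ, ?_⟩
    rw [Function.iterate_succ_apply', Function.iterate_succ_apply', h, symSq_smul,
      symSq_inf d hd, smul_smul]

/-- preperiodicity of a pair -/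
lemma pre_pair {α : Type*} {g : α → α} {a b : α} {m n : ℕ} (hmn : m < n)
    (h : (g^[n] a = g^[m] a ∧ g^[n] b = g^[m] b) ∨ (g^[n] a = g^[m] b ∧ g^[n] b = g^[m] a)) :
    Pre g a ∧ Pre g b := by
  rcases h with ⟨h1, h2⟩ | ⟨h1, h2⟩
  · exact ⟨⟨m, n, hmn, h1.symm⟩, ⟨m, n, hmn, h2.symm⟩⟩
  · obtain ⟨k, hk, rfl⟩ : ∃ k, 0 < k ∧ n = k + m := ⟨n - m, by omega, by omega⟩
    rw [Function.iterate_add_apply] at h1
    rw [Function.iterate_add_apply] at h2
    have h3 : g^[k + (k + m)] a = g^[m] a := by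
      rw [Function.iterate_add_apply, Function.iterate_add_apply, h1, h2]
    have h4 : g^[k + (k + m)] b = g^[m] b := by
      rw [Function.iterate_add_apply, Function.iterate_add_apply, h2, h1]
    exact ⟨⟨m, _, by omega, h3.symm⟩, ⟨m, _, by omega, h4.symm⟩⟩

/-- normal forms -/
lemma sym_norm [IsAlgClosed W] {d : ℕ} (hd : d ≠ 0) {τ : K} (hτ : τ ≠ 0) (c : K)
    (x : Fin 3 → K) (hx : x ≠ 0)
    (m n : ℕ) (hmn : m < n) (a : K) (h : (symSq d τ c)^[n] x = a • (symSq d τ c)^[m] x) :
    ∃ (b : K) (y : Fin 3 → K), b ≠ 0 ∧ x = b • y ∧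
      ((∃ r r' : W, Deg2 K r ∧ Deg2 K r' ∧ Pre (Ft K d τ c) r ∧ Pre (Ft K d τ c) r' ∧
          algebraMap K W ∘ y = spr r r') ∨
        (∃ z : K, Pre (fun z => τ * z ^ d + c) z ∧ y = ![0, 1, z]) ∨ y = ![0, 0, 1]) := by
  by_cases h0 : x 0 = 0
  · by_cases h1 : x 1 = 0
    · have h2 : x 2 ≠ 0 := by
        intro h2
        apply hx
        ext i
        fin_cases i
        · exact h0
        · exact h1
        · exact h2
      refine ⟨x 2, ![0, 0, 1], h2, ?_, Or.inr (Or.inr rfl)⟩
      ext i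
      fin_cases i
      · simpa using h0
      · simpa using h1
      · simp
    · refine ⟨x 1, ![0, 1, x 2 / x 1], h1, ?_, Or.inr (Or.inl ⟨x 2 / x 1, ?_, rfl⟩)⟩
      · ext i
        fin_cases i
        · simpa using h0
        · simp
        · simp [mul_div_cancel₀ _ h1]
      · have hxy : x = x 1 • ![0, 1, x 2 / x 1] := by
          ext i
          fin_cases i
          · simpa using h0
          · simp
          · simp [mul_div_cancel₀ _ h1]
        obtain ⟨b1, hb1, e1⟩ := iter_smul (fun a x => symSq_smul d τ c a x) n (x 1) h1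
          ![0, 1, x 2 / x 1]
        obtain ⟨b2, hb2, e2⟩ := iter_smul (fun a x => symSq_smul d τ c a x) m (x 1) h1
          ![0, 1, x 2 / x 1]
        rw [← hxy] at e1 e2
        obtain ⟨b3, hb3, e3⟩ := symSq_iter_inf d hd hτ c (x 2 / x 1) n
        obtain ⟨b4, hb4, e4⟩ := symSq_iter_inf d hd hτ c (x 2 / x 1) m
        rw [e1, e2, e3, e4, smul_smul, smul_smul, smul_smul] at h
        have k1 := congrFun h 1
        have k2 := congrFun h 2
        simp only [Pi.smul_apply, smul_eq_mul, Matrix.cons_val_one, Matrix.cons_val,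
          Matrix.cons_val_zero, mul_one] at k1 k2
        rw [← k1] at k2
        exact ⟨m, n, hmn, (mul_left_cancel₀ (mul_ne_zero hb1 hb3) k2).symm⟩
  · refine ⟨x 0, (x 0)⁻¹ • x, h0, ?_, Or.inl ?_⟩
    · rw [smul_smul, mul_inv_cancel₀ h0, one_smul]
    set y := (x 0)⁻¹ • x with hy
    have hy0 : y 0 = 1 := by simp [hy, h0]
    obtain ⟨b1, hb1, e1⟩ := iter_smul (fun a x => symSq_smul d τ c a x) n (x 0)⁻¹
      (inv_ne_zero h0) x
    obtain ⟨b2, hb2, e2⟩ := iter_smul (fun a x => symSq_smul d τ c a x) m (x 0)⁻¹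
      (inv_ne_zero h0) x
    rw [← hy] at e1 e2
    have key : (symSq d τ c)^[n] y = (b1 * a * b2⁻¹) • (symSq d τ c)^[m] y := by
      rw [e1, e2, h, smul_smul, smul_smul]
      congr 1
      field_simp
    -- the roots
    obtain ⟨r, hr⟩ := IsAlgClosed.exists_root
      (X ^ 2 - C (algebraMap K W (y 1)) * X + C (algebraMap K W (y 2)) : W[X]) (by
        have : (X ^ 2 - C (algebraMap K W (y 1)) * X + C (algebraMap K W (y 2)) : W[X]).degree = 2 := by
          compute_degree!
        rw [this]; norm_num)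
    have hr' : r ^ 2 - algebraMap K W (y 1) * r + algebraMap K W (y 2) = 0 := by
      simpa [IsRoot] using hr
    set r' : W := algebraMap K W (y 1) - r with hr'def
    have hcj : Cj r r' (y 1) (y 2) := ⟨by rw [hr'def]; ring, by rw [hr'def]; linear_combination -hr'⟩
    have hyW : algebraMap K W ∘ y = spr r r' := by
      ext i
      fin_cases i
      · simp [spr, hy0]
      · simpa [spr] using hcj.add.symm
      · simpa [spr] using hcj.mul.symm
    have hW : (symSq d (algebraMap K W τ) (algebraMap K W c))^[n] (spr r r') =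
        algebraMap K W (b1 * a * b2⁻¹) •
          (symSq d (algebraMap K W τ) (algebraMap K W c))^[m] (spr r r') := by
      rw [← hyW, ← symSq_iter_map, ← symSq_iter_map, key]
      ext i
      simp
    rw [symSq_iter_spr, symSq_iter_spr] at hW
    have h1 : algebraMap K W (b1 * a * b2⁻¹) = 1 := by
      have := congrFun hW 0
      simpa [spr] using this.symm
    rw [h1, one_smul] at hW
    have h2 := pre_pair hmn (spr_eq hW)
    exact ⟨r, r', hcj.deg2, hcj.symm.deg2, h2.1, h2.2, hyW⟩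

lemma conj_iter {n d : ℕ} {G F : (Fin n → K) → (Fin n → K)}
    (hG : ∀ (a : K) (x : Fin n → K), G (a • x) = a ^ d • G x)
    (P : Matrix.GeneralLinearGroup (Fin n) K) (u : K) (hu : u ≠ 0)
    (hF : ∀ x, (P : Matrix (Fin n) (Fin n) K) *ᵥ (F x) = u • G ((P : Matrix (Fin n) (Fin n) K) *ᵥ x))
    (k : ℕ) (x : Fin n → K) : ∃ b : K, b ≠ 0 ∧
      (P : Matrix (Fin n) (Fin n) K) *ᵥ (F^[k] x) =
        b • G^[k] ((P : Matrix (Fin n) (Fin n) K) *ᵥ x) := by
  induction k with
  | zero => exact ⟨1, one_ne_zero, by simp⟩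
  | succ k ih =>
    obtain ⟨b, hb, h⟩ := ih
    refine ⟨u * b ^ d, mul_ne_zero hu (pow_ne_zero _ hb), ?_⟩
    rw [Function.iterate_succ_apply', Function.iterate_succ_apply', hF, h, hG, smul_smul]

/-- **Symmetric squares.** -/
theorem sym_all (K : Type) [Field K] [NumberField K] {d : ℕ} (hd : 6 ≤ d) {τ : K} (hτ : τ ≠ 0) :
    ∃ (C : ℕ) (E : Set K), E.Finite ∧ ∀ (c : K) (P : Matrix.GeneralLinearGroup (Fin 3) K)
      (F : (Fin 3 → K) → (Fin 3 → K)) (u : K) (_ : u ≠ 0)
      (_ : ∀ x, (P : Matrix (Fin 3) (Fin 3) K) *ᵥ (F x) =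
        u • symSq d τ c ((P : Matrix (Fin 3) (Fin 3) K) *ᵥ x)),
      (∀ S : Finset (Fin 3 → K), (∀ x ∈ S, x ≠ 0) →
        (∀ x ∈ S, ∀ y ∈ S, ∀ a : K, x = a • y → x = y) →
        (∀ x ∈ S, ∃ m n : ℕ, m < n ∧ ∃ a : K, a ≠ 0 ∧ F^[n] x = a • F^[m] x) → S.card ≤ C) ∧
      (c ∉ E → ∀ x, x ≠ 0 → (∃ m n : ℕ, m < n ∧ ∃ a : K, a ≠ 0 ∧ F^[n] x = a • F^[m] x) →
        ∃ a : K, a ≠ 0 ∧ F (F x) = a • F x) := by
  classical
  have hd0 : d ≠ 0 := by omega
  obtain ⟨B, hB⟩ := bound2 K (AlgebraicClosure K) hd hτ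
  obtain ⟨⟨E, hE, H⟩, -⟩ := main2 K (AlgebraicClosure K) hd hτ
  set W := AlgebraicClosure K with hW
  have hfin : ∀ c : K, {x : W | Deg2 K x ∧ Pre (Ft K d τ c) x}.Finite := fun c =>
    Set.finite_of_encard_le_coe (hB c)
  let Z : K → Finset W := fun c => (hfin c).toFinset
  have hZ : ∀ c x, x ∈ Z c ↔ Deg2 K x ∧ Pre (Ft K d τ c) x := by
    intro c x
    simp [Z]
  have hZc : ∀ c, (Z c).card ≤ B := by
    intro c
    have h1 := hB c
    rw [(hfin c).encard_eq_coe_toFinset_card] at h1
    exact_mod_cast h1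
  have hKW : ∀ (c z : K), Pre (fun z => τ * z ^ d + c) z →
      Deg2 K (algebraMap K W z) ∧ Pre (Ft K d τ c) (algebraMap K W z) := by
    intro c z hz
    refine ⟨⟨2 * z, z ^ 2, ?_⟩, hz.push (algebraMap K W) ?_⟩
    · simp only [map_mul, map_pow, map_ofNat]
      ring
    · intro x
      simp [Ft]
  refine ⟨B * B + B + 1, E, hE, ?_⟩
  intro c P F u hu hF
  constructor
  · intro S hS0 hSp hS
    obtain ⟨T, hTc, hT0, hTp, hT⟩ := conj_card (fun a x => symSq_smul d τ c a x) P u hu hF hS0 hSp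
      (fun m n => m < n) hS
    rw [← hTc]
    have hnorm : ∀ x ∈ T, ∃ (b : K) (y : Fin 3 → K), b ≠ 0 ∧ x = b • y ∧
      ((∃ r r' : W, Deg2 K r ∧ Deg2 K r' ∧ Pre (Ft K d τ c) r ∧ Pre (Ft K d τ c) r' ∧
          algebraMap K W ∘ y = spr r r') ∨
        (∃ z : K, Pre (fun z => τ * z ^ d + c) z ∧ y = ![0, 1, z]) ∨ y = ![0, 0, 1]) := by
      intro x hx
      obtain ⟨m, n, hmn, a, ha, h⟩ := hT x hx
      exact sym_norm hd0 hτ c x (hT0 x hx) m n hmn a h
    choose! b y hb hy hpre using hnorm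
    have hyinj : Set.InjOn (fun x => algebraMap K W ∘ y x) T := by
      intro x hx x' hx' h
      have h' : y x = y x' := by
        ext i
        exact (algebraMap K W).injective (congrFun h i)
      refine hTp x hx x' hx' (b x * (b x')⁻¹) ?_
      have e1 := hy x hx
      have e2 := hy x' hx'
      have e3 : y x' = (b x')⁻¹ • x' := by
        rw [eq_inv_smul_iff₀ (hb x' hx')]
        exact e2.symm
      rw [mul_smul, ← e3, ← h']
      exact e1
    let T1 : Finset (Fin 3 → W) := (Z c ×ˢ Z c).image fun q => spr q.1 q.2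
    let T2 : Finset (Fin 3 → W) := (Z c).image fun z => ![0, 1, z]
    have hsub : T.image (fun x => algebraMap K W ∘ y x) ⊆ T1 ∪ T2 ∪ {![0, 0, 1]} := by
      intro z hz
      obtain ⟨x, hx, rfl⟩ := Finset.mem_image.mp hz
      rw [Finset.mem_union, Finset.mem_union, Finset.mem_singleton]
      rcases hpre x hx with ⟨r, r', h1, h2, h3, h4, h5⟩ | ⟨z, h1, h2⟩ | h1
      · left; left
        rw [h5]
        exact Finset.mem_image.mpr ⟨(r, r'), Finset.mem_product.mpr
          ⟨(hZ c r).mpr ⟨h1, h3⟩, (hZ c r').mpr ⟨h2, h4⟩⟩, rfl⟩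
      · left; right
        refine Finset.mem_image.mpr ⟨algebraMap K W z, (hZ c _).mpr (hKW c z h1), ?_⟩
        rw [h2]
        ext i
        fin_cases i <;> simp
      · right
        rw [h1]
        ext i
        fin_cases i <;> simp
    calc T.card = (T.image (fun x => algebraMap K W ∘ y x)).card :=
          (Finset.card_image_of_injOn hyinj).symm
      _ ≤ (T1 ∪ T2 ∪ {![0, 0, 1]}).card := Finset.card_le_card hsub
      _ ≤ (T1 ∪ T2).card + 1 := (Finset.card_union_le _ _).trans (by simp)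
      _ ≤ T1.card + T2.card + 1 := by
          have := Finset.card_union_le T1 T2
          omega
      _ ≤ B * B + B + 1 := by
          have h1 : T1.card ≤ (Z c).card * (Z c).card :=
            Finset.card_image_le.trans (by rw [Finset.card_product])
          have h2 : T2.card ≤ (Z c).card := Finset.card_image_le
          have h3 := Nat.mul_le_mul (hZc c) (hZc c)
          have h4 := hZc c
          omega
  · intro hc x hx0 ⟨m, n, hmn, a, ha, hx⟩
    have hMinj : Function.Injective (fun x => (P : Matrix (Fin 3) (Fin 3) K) *ᵥ x) :=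
      Matrix.mulVec_injective_of_isUnit (A := (P : Matrix (Fin 3) (Fin 3) K)) P.isUnit
    have hit := conj_iter (fun a x => symSq_smul d τ c a x) P u hu hF
    obtain ⟨b1, hb1, e1⟩ := hit n x
    obtain ⟨b2, hb2, e2⟩ := hit m x
    set x' := (P : Matrix (Fin 3) (Fin 3) K) *ᵥ x with hx'
    have hx'0 : x' ≠ 0 := by
      intro h0
      apply hx0
      apply hMinj
      show (P : Matrix (Fin 3) (Fin 3) K) *ᵥ x = (P : Matrix (Fin 3) (Fin 3) K) *ᵥ 0
      rw [← hx', h0, Matrix.mulVec_zero]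
    have hpre : (symSq d τ c)^[n] x' = (b1⁻¹ * a * b2) • (symSq d τ c)^[m] x' := by
      rw [hx, Matrix.mulVec_smul, e2] at e1
      rw [mul_smul, mul_smul, e1, smul_smul, inv_mul_cancel₀ hb1, one_smul]
    obtain ⟨b, y, hb, hy, hN⟩ := sym_norm (W := W) hd0 hτ c x' hx'0 m n hmn _ hpre
    have hGG : ∃ e : K, e ≠ 0 ∧ symSq d τ c (symSq d τ c y) = e • symSq d τ c y := by
      rcases hN with ⟨r, r', h1, h2, h3, h4, h5⟩ | ⟨z, h1, h2⟩ | h1
      · rcases H c hc with h | ⟨t, ht, h⟩
        · exact absurd h3 (h r h1)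
        · have hr := (h r h1).mp h3
          have hr' := (h r' h2).mp h4
          have htW : algebraMap K W τ * algebraMap K W t ^ d + algebraMap K W c =
              algebraMap K W t := by
            rw [← map_pow, ← map_mul, ← map_add, ht]
          refine ⟨1, one_ne_zero, ?_⟩
          rw [one_smul]
          ext i
          apply (algebraMap K W).injective
          have k1 : algebraMap K W ∘ symSq d τ c y =
              spr (algebraMap K W t) (algebraMap K W t) := by
            rw [symSq_map, h5, symSq_spr, hr, hr', htW]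
          have k2 : algebraMap K W ∘ symSq d τ c (symSq d τ c y) =
              spr (algebraMap K W t) (algebraMap K W t) := by
            rw [symSq_map, k1, symSq_spr, htW]
          exact (congrFun k2 i).trans (congrFun k1 i).symm
      · obtain ⟨h3, h4⟩ := hKW c z h1
        rcases H c hc with h | ⟨t, ht, h⟩
        · exact absurd h4 (h _ h3)
        · have hz := (h _ h3).mp h4
          have hz' : z ^ d = t ^ d := by
            apply (algebraMap K W).injective
            rw [map_pow, map_pow]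
            exact hz
          refine ⟨τ ^ d, pow_ne_zero _ hτ, ?_⟩
          rw [h2, symSq_inf d hd0, symSq_smul, symSq_inf d hd0, hz', ht, ht]
      · refine ⟨(τ ^ 2) ^ d, pow_ne_zero _ (pow_ne_zero _ hτ), ?_⟩
        rw [h1, symSq_pt d hd0, symSq_smul, symSq_pt d hd0]
    obtain ⟨e, he, hGe⟩ := hGG
    have f1 : (P : Matrix (Fin 3) (Fin 3) K) *ᵥ (F x) = (u * b ^ d) • symSq d τ c y := by
      rw [hF, ← hx', hy, symSq_smul, smul_smul]
    have f2 : (P : Matrix (Fin 3) (Fin 3) K) *ᵥ (F (F x)) =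
        ((u * (u * b ^ d) ^ d) * e) • symSq d τ c y := by
      rw [hF, f1, symSq_smul, hGe, smul_smul, smul_smul]
    refine ⟨(u * b ^ d) ^ d * u * e * (u * b ^ d)⁻¹, ?_, ?_⟩
    · have h7 : u * b ^ d ≠ 0 := mul_ne_zero hu (pow_ne_zero _ hb)
      exact mul_ne_zero (mul_ne_zero (mul_ne_zero (pow_ne_zero _ h7) hu) he) (inv_ne_zero h7)
    · apply hMinj
      show (P : Matrix (Fin 3) (Fin 3) K) *ᵥ (F (F x)) = _
      simp only [Matrix.mulVec_smul]
      rw [f1, f2, smul_smul]
      congr 1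
      have : u * b ^ d ≠ 0 := mul_ne_zero hu (pow_ne_zero _ hb)
      field_simp

end main

end Pool.Agent.Helper80.SG
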